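import Mathlib

set_option autoImplicit false

open MeasureTheory ProbabilityTheory Filter Set
open scoped ENNReal

namespace Pool.Agent.Results.MP_75ee99_lc.CyclicMonotone

/-!
# Searching the line with a faulty searcher: cyclic monotone trajectories are never optimal

Fix `p` in `(0, 1)` and put `q = 1 - p`.

* Lower bound (`Trajectory.cyclic_lower_bound`): a cyclic monotone trajectory has competitive ratio
  at least `8 + p² / (2 - p)`.  Indeed, with `S n = x 1 + ⋯ + x n`, the points just beyond a turning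
  point `x k` give `2 p² ∑ qⁿ S (k + 1 + n) ≤ (CR - p² / (2 - p)) x k`, and a second order linear
  recurrence inequality whose characteristic roots are not real has no positive solution.
* Upper bound (`Trajectory.exists_better`): take the geometric cyclic monotone trajectory with ratio
  `r = 2 / (2 - p)`, and each time when new ground beyond the old turning point `z` is reached, go on
  to `z (1 + δ)`, then back to `z`, then out again.  For small `δ > 0` the competitive ratio gets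
  strictly smaller than `8 + p² / (2 - p)`.

`cyclic_value` shows that `8 + p² / (2 - p)` is the exact infimum over the cyclic monotone
trajectories.
-/

/-! ## Definitions, as in the problem file -/

/-- A trajectory, given by its turning points `y 0 = 0, y 1, y 2, …`. -/
structure Trajectory where
  /-- the turning points -/
  y : ℕ → ℝ
  y_zero : y 0 = 0
  y_one : y 1 ≠ 0
  turn : ∀ i : ℕ, 1 ≤ i → (y (i + 1) - y i) * (y i - y (i - 1)) < 0
  infinite : Tendsto (fun n : ℕ => ∑ i ∈ Finset.range n, |y (i + 1) - y i|) atTop atTop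

namespace Trajectory

variable (X : Trajectory)

/-- The time at which the searcher reaches the point `y n`. -/
noncomputable def time (n : ℕ) : ℝ := ∑ i ∈ Finset.range n, |X.y (i + 1) - X.y i|

/-- The number `n` of the leg, from `y n` to `y (n + 1)`, that the searcher travels at time `t`. -/
noncomputable def leg (t : ℝ) : ℕ := sInf {n : ℕ | t < X.time (n + 1)}

/-- The position `X(t)` of the searcher at time `t ≥ 0`: on each leg, from `y n` to `y (n + 1)`, it
moves in a straight line at speed `1`. -/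
noncomputable def pos (t : ℝ) : ℝ :=
  X.y (X.leg t) +
    ((SignType.sign (X.y (X.leg t + 1) - X.y (X.leg t)) : SignType) : ℝ) *
      (t - X.time (X.leg t))

/-- The set of times `t ≥ 0` with `X(t) = h`; each of its elements is one pass over `h`. -/
def passes (h : ℝ) : Set ℝ := {t | 0 ≤ t ∧ X.pos t = h}

/-- The time of the `(n+1)`-st pass over `h`, for `n = 0, 1, 2, …` (it is `∞` if there are at most
`n` passes over `h`): the least pass `t` such that more than `n` passes are at most `t`. -/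
noncomputable def passTime (h : ℝ) (n : ℕ) : ℝ≥0∞ :=
  ⨅ (t : ℝ) (_ : t ∈ X.passes h) (_ : (n : ℕ∞) < (X.passes h ∩ Iic t).encard), ENNReal.ofReal t

/-- The time of the first detection of an item hidden at `h`, if `ω n = true` means that the
searcher detects the item at the `(n+1)`-st pass over `h` (`∞` if there is no detection). -/
noncomputable def detectionTime (h : ℝ) (ω : ℕ → Bool) : ℝ≥0∞ :=
  ⨅ (n : ℕ) (_ : ω n = true), X.passTime h n

/-- The law of a sequence of independent trials, each with success probability `p`. -/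
noncomputable def trials (p : unitInterval) : Measure (ℕ → Bool) :=
  Measure.infinitePi fun _ : ℕ => bernoulliMeasure true false p

/-- The expected detection time `E[T_h]`. -/
noncomputable def expectedTime (p : unitInterval) (h : ℝ) : ℝ≥0∞ :=
  ∫⁻ ω, X.detectionTime h ω ∂(trials p)

/-- The competitive ratio `CR_p(X)`. -/
noncomputable def CR (p : unitInterval) : ℝ≥0∞ :=
  ⨆ (h : ℝ) (_ : 1 ≤ |h|), ENNReal.ofReal (p : ℝ) * X.expectedTime p h / ENNReal.ofReal |h|

/-- Cyclic monotone trajectories: the turning points are `x 1, - x 2, x 3, - x 4, …`, or the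
mirror image, with all `x i > 0` and `x (i + 2) > x i`. -/
def IsCyclicMonotone : Prop :=
  ∃ x : ℕ → ℝ, (∀ i, 1 ≤ i → 0 < x i) ∧ (∀ i, 1 ≤ i → x i < x (i + 2)) ∧
    ((∀ i, 1 ≤ i → X.y i = (-1) ^ (i + 1) * x i) ∨
      (∀ i, 1 ≤ i → X.y i = -((-1) ^ (i + 1) * x i)))

/-! ## Basic facts on positions and passes -/

lemma time_succ (n : ℕ) : X.time (n + 1) = X.time n + |X.y (n + 1) - X.y n| := by
  simp [time, Finset.sum_range_succ]

lemma time_zero : X.time 0 = 0 := by simp [time]

lemma ne (n : ℕ) : X.y (n + 1) - X.y n ≠ 0 := by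
  rcases Nat.eq_zero_or_pos n with rfl | hn
  · rw [X.y_zero, sub_zero]; exact X.y_one
  · intro h
    have := X.turn n hn
    rw [h, zero_mul] at this
    exact lt_irrefl _ this

lemma time_lt (n : ℕ) : X.time n < X.time (n + 1) := by
  rw [time_succ]
  have := abs_pos.2 (X.ne n)
  linarith

lemma time_strictMono : StrictMono X.time := strictMono_nat_of_lt_succ X.time_lt

lemma leg_eq {t : ℝ} {n : ℕ} (h1 : X.time n ≤ t) (h2 : t < X.time (n + 1)) : X.leg t = n := by
  unfold leg
  apply le_antisymm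
  · exact Nat.sInf_le h2
  · have hne : ({m : ℕ | t < X.time (m + 1)}).Nonempty := ⟨n, h2⟩
    have hm := Nat.sInf_mem hne
    by_contra hlt
    push Not at hlt
    have h3 : X.time (sInf {m : ℕ | t < X.time (m + 1)} + 1) ≤ X.time n :=
      X.time_strictMono.monotone hlt
    have h4 : t < X.time (sInf {m : ℕ | t < X.time (m + 1)} + 1) := hm
    linarith

lemma exists_leg {t : ℝ} (ht : 0 ≤ t) : ∃ n, X.time n ≤ t ∧ t < X.time (n + 1) := by
  have hex : ∃ n, t < X.time (n + 1) := by
    have := X.infinite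
    obtain ⟨n, hn⟩ := ((tendsto_atTop.1 this) (t + 1)).exists
    exact ⟨n, by
      have h1 : X.time n < X.time (n + 1) := X.time_lt n
      have h2 : t + 1 ≤ X.time n := hn
      linarith⟩
  classical
  refine ⟨Nat.find hex, ?_, Nat.find_spec hex⟩
  rcases Nat.eq_zero_or_pos (Nat.find hex) with h | h
  · rw [h, time_zero]; exact ht
  · have := Nat.find_min hex (m := Nat.find hex - 1) (by omega)
    rw [Nat.sub_add_cancel (by omega)] at this
    exact not_lt.1 this

lemma pos_eq {n : ℕ} {s : ℝ} (h0 : 0 ≤ s) (h1 : s ≤ |X.y (n + 1) - X.y n|) :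
    X.pos (X.time n + s) =
      X.y n + ((SignType.sign (X.y (n + 1) - X.y n) : SignType) : ℝ) * s := by
  rcases h1.lt_or_eq with h | h
  · have hl : X.leg (X.time n + s) = n := by
      apply leg_eq
      · linarith
      · rw [time_succ]; linarith
    unfold pos
    rw [hl]
    congr 2
    ring
  · have hl : X.leg (X.time n + s) = n + 1 := by
      apply leg_eq
      · rw [time_succ]; linarith
      · have := X.time_lt (n + 1)
        rw [h, ← time_succ]; exact this
    unfold pos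
    rw [hl, h, ← time_succ]
    have := sign_mul_abs (X.y (n + 1) - X.y n)
    rw [this]
    ring

lemma mem_passes_iff {h t : ℝ} : t ∈ X.passes h ↔
    ∃ n, h ∈ Set.uIcc (X.y n) (X.y (n + 1)) ∧ t = X.time n + |h - X.y n| := by
  constructor
  · rintro ⟨h0, hp⟩
    obtain ⟨n, hn1, hn2⟩ := X.exists_leg h0
    have hs0 : 0 ≤ t - X.time n := by linarith
    have hs1 : t - X.time n ≤ |X.y (n + 1) - X.y n| := by
      rw [time_succ] at hn2; linarith
    have := X.pos_eq hs0 hs1
    rw [add_sub_cancel] at this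
    rw [this] at hp
    refine ⟨n, ?_, ?_⟩
    · rcases lt_or_gt_of_ne (X.ne n) with hneg | hpos
      · rw [sign_neg hneg] at hp
        rw [abs_of_neg hneg] at hs1
        simp only [SignType.coe_neg_one] at hp
        rw [Set.mem_uIcc]
        right
        constructor <;> linarith
      · rw [sign_pos hpos] at hp
        rw [abs_of_pos hpos] at hs1
        simp only [SignType.coe_one] at hp
        rw [Set.mem_uIcc]
        left
        constructor <;> linarith
    · rcases lt_or_gt_of_ne (X.ne n) with hneg | hpos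
      · rw [sign_neg hneg] at hp
        simp only [SignType.coe_neg_one] at hp
        rw [abs_of_nonpos (by linarith)]
        linarith
      · rw [sign_pos hpos] at hp
        simp only [SignType.coe_one] at hp
        rw [abs_of_nonneg (by linarith)]
        linarith
  · rintro ⟨n, hmem, rfl⟩
    have htn : 0 ≤ X.time n := by
      have := X.time_strictMono.monotone (Nat.zero_le n)
      rwa [time_zero] at this
    refine ⟨by positivity, ?_⟩
    have h1 : |h - X.y n| ≤ |X.y (n + 1) - X.y n| := by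
      rw [Set.mem_uIcc] at hmem
      rcases hmem with ⟨ha, hb⟩ | ⟨ha, hb⟩
      · rw [abs_of_nonneg (by linarith), abs_of_nonneg (by linarith)]; linarith
      · rw [abs_of_nonpos (by linarith), abs_of_nonpos (by linarith)]; linarith
    rw [X.pos_eq (abs_nonneg _) h1]
    rcases lt_or_gt_of_ne (X.ne n) with hneg | hpos
    · rw [sign_neg hneg]
      simp only [SignType.coe_neg_one]
      rw [Set.mem_uIcc] at hmem
      rw [abs_of_nonpos (by rcases hmem with ⟨ha, hb⟩ | ⟨ha, hb⟩ <;> linarith)]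
      linarith
    · rw [sign_pos hpos]
      simp only [SignType.coe_one]
      rw [Set.mem_uIcc] at hmem
      rw [abs_of_nonneg (by rcases hmem with ⟨ha, hb⟩ | ⟨ha, hb⟩ <;> linarith)]
      linarith

lemma passTime_mono (h : ℝ) : Monotone (X.passTime h) := by
  intro m n hmn
  unfold passTime
  refine le_iInf fun t => le_iInf fun ht => le_iInf fun hc => ?_
  refine iInf_le_of_le t (iInf_le_of_le ht (iInf_le_of_le ?_ le_rfl))
  refine lt_of_le_of_lt ?_ hc
  exact_mod_cast hmn

/-- Upper bound for pass times. -/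
lemma passTime_le {h : ℝ} {τ : ℕ → ℝ} (hτ : StrictMono τ) (hp : ∀ n, τ n ∈ X.passes h) (n : ℕ) :
    X.passTime h n ≤ ENNReal.ofReal (τ n) := by
  unfold passTime
  refine iInf_le_of_le (τ n) (iInf_le_of_le (hp n) (iInf_le_of_le ?_ le_rfl))
  have hsub : τ '' (Finset.range (n + 1) : Set ℕ) ⊆ X.passes h ∩ Iic (τ n) := by
    rintro _ ⟨m, hm, rfl⟩
    refine ⟨hp m, hτ.monotone ?_⟩
    simpa [Nat.lt_succ_iff] using hm
  have h1 := Set.encard_le_encard hsub
  rw [hτ.injective.encard_image, Set.encard_coe_eq_coe_finsetCard, Finset.card_range] at h1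
  refine lt_of_lt_of_le ?_ h1
  exact_mod_cast Nat.lt_succ_self n

/-- Lower bound for pass times. -/
lemma le_passTime {h : ℝ} {τ : ℕ → ℝ} (hτ : StrictMono τ)
    (hp : ∀ t ∈ X.passes h, ∃ n, t = τ n) (n : ℕ) :
    ENNReal.ofReal (τ n) ≤ X.passTime h n := by
  unfold passTime
  refine le_iInf fun t => le_iInf fun ht => le_iInf fun hc => ?_
  apply ENNReal.ofReal_le_ofReal
  by_contra hlt
  push Not at hlt
  have hsub : X.passes h ∩ Iic t ⊆ τ '' (Finset.range n : Set ℕ) := by
    rintro s ⟨hs, hst⟩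
    obtain ⟨m, rfl⟩ := hp s hs
    refine ⟨m, ?_, rfl⟩
    have : τ m < τ n := lt_of_le_of_lt hst hlt
    simpa using hτ.lt_iff_lt.1 this
  have h1 := Set.encard_le_encard hsub
  rw [hτ.injective.encard_image, Set.encard_coe_eq_coe_finsetCard, Finset.card_range] at h1
  exact absurd hc (not_lt.2 h1)

lemma passTime_eq_top {h : ℝ} (hp : X.passes h = ∅) (n : ℕ) : X.passTime h n = ⊤ := by
  unfold passTime
  simp [hp]


/-! ## The expected detection time as a sum -/

/-- The event that the first success is trial `n`. -/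
def firstAt (n : ℕ) : Set (ℕ → Bool) := {ω | ω n = true ∧ ∀ m < n, ω m = false}

lemma firstAt_eq (n : ℕ) : firstAt n =
    Set.pi (Finset.range (n + 1) : Set ℕ) (fun i => if i = n then {true} else {false}) := by
  ext ω
  simp only [firstAt, Set.mem_ofPred_eq, Set.mem_pi, Finset.coe_range, Set.mem_Iio]
  constructor
  · rintro ⟨h1, h2⟩ i hi
    by_cases hin : i = n
    · subst hin; simp [h1]
    · simp only [hin, if_false, Set.mem_singleton_iff]
      exact h2 i (by omega)
  · intro h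
    constructor
    · have := h n (by omega)
      simpa using this
    · intro m hm
      have := h m (by omega)
      simpa [Nat.ne_of_lt hm] using this

lemma measurableSet_firstAt (n : ℕ) : MeasurableSet (firstAt n) := by
  rw [firstAt_eq]
  apply MeasurableSet.pi (Finset.countable_toSet _)
  intro i _
  exact MeasurableSet.of_discrete

lemma bern_true (p : unitInterval) :
    bernoulliMeasure true false p {true} = ENNReal.ofReal p := by
  rw [bernoulliMeasure_apply_of_mem_of_notMem p MeasurableSet.of_discrete (by simp) (by simp)]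
  rw [ENNReal.ofReal]
  congr 1
  ext
  rw [Real.coe_toNNReal _ p.2.1]
  rfl

lemma bern_false (p : unitInterval) :
    bernoulliMeasure true false p {false} = ENNReal.ofReal (1 - p) := by
  rw [bernoulliMeasure_apply_of_notMem_of_mem p MeasurableSet.of_discrete (by simp) (by simp)]
  rw [ENNReal.ofReal]
  congr 1
  ext
  rw [Real.coe_toNNReal _ (by linarith [p.2.2])]
  rfl

lemma trials_firstAt (p : unitInterval) (n : ℕ) :
    trials p (firstAt n) = ENNReal.ofReal p * ENNReal.ofReal (1 - p) ^ n := by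
  rw [firstAt_eq, trials, Measure.infinitePi_pi _ (fun i _ => MeasurableSet.of_discrete),
    Finset.prod_range_succ]
  have h1 : ∏ x ∈ Finset.range n,
      (bernoulliMeasure true false p) (if x = n then {true} else {false}) =
      ∏ x ∈ Finset.range n, ENNReal.ofReal (1 - p) := by
    apply Finset.prod_congr rfl
    intro x hx
    rw [Finset.mem_range] at hx
    rw [if_neg (by omega), bern_false]
  rw [h1, if_pos rfl, bern_true, Finset.prod_const, Finset.card_range, mul_comm]

lemma trials_never (p : unitInterval) (hp : 0 < (p : ℝ)) :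
    trials p {ω | ∀ n, ω n = false} = 0 := by
  have hlt : ENNReal.ofReal (1 - p) < 1 := by
    rw [← ENNReal.ofReal_one]
    exact (ENNReal.ofReal_lt_ofReal_iff one_pos).2 (by linarith)
  have hle : ∀ n : ℕ, trials p {ω | ∀ n, ω n = false} ≤ ENNReal.ofReal (1 - p) ^ n := by
    intro n
    have hsub : {ω : ℕ → Bool | ∀ n, ω n = false} ⊆
        Set.pi (Finset.range n : Set ℕ) (fun _ => {false}) := by
      intro ω hω i _
      exact hω i
    refine (measure_mono hsub).trans ?_
    rw [trials, Measure.infinitePi_pi _ (fun i _ => MeasurableSet.of_discrete),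
      Finset.prod_congr rfl (fun i _ => bern_false p), Finset.prod_const, Finset.card_range]
  have ht := ENNReal.tendsto_pow_atTop_nhds_zero_of_lt_one hlt
  exact le_antisymm (ge_of_tendsto' ht hle) zero_le

lemma detectionTime_eq_of_firstAt {h : ℝ} {ω : ℕ → Bool} {n : ℕ} (hω : ω ∈ firstAt n) :
    X.detectionTime h ω = X.passTime h n := by
  unfold detectionTime
  apply le_antisymm
  · exact iInf_le_of_le n (iInf_le_of_le hω.1 le_rfl)
  · refine le_iInf fun m => le_iInf fun hm => ?_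
    apply X.passTime_mono h
    by_contra hlt
    push Not at hlt
    rw [hω.2 m hlt] at hm
    exact absurd hm (by decide)

lemma exists_firstAt {ω : ℕ → Bool} (hω : ¬ ∀ n, ω n = false) : ∃ n, ω ∈ firstAt n := by
  classical
  push Not at hω
  have hex : ∃ n, ω n = true := by
    obtain ⟨n, hn⟩ := hω
    exact ⟨n, by simpa using hn⟩
  refine ⟨Nat.find hex, Nat.find_spec hex, fun m hm => ?_⟩
  have := Nat.find_min hex hm
  simpa using this

lemma firstAt_disjoint {ω : ℕ → Bool} {m n : ℕ} (hm : ω ∈ firstAt m) (hn : ω ∈ firstAt n) :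
    m = n := by
  by_contra hne
  rcases lt_or_gt_of_ne hne with h | h
  · have := hn.2 m h
    rw [hm.1] at this
    exact absurd this (by decide)
  · have := hm.2 n h
    rw [hn.1] at this
    exact absurd this (by decide)

lemma expectedTime_eq (p : unitInterval) (hp : 0 < (p : ℝ)) (h : ℝ) :
    X.expectedTime p h =
      ∑' n, ENNReal.ofReal p * ENNReal.ofReal (1 - p) ^ n * X.passTime h n := by
  have h1 : X.expectedTime p h =
      ∫⁻ ω, ∑' n, (firstAt n).indicator (fun _ => X.passTime h n) ω ∂(trials p) := by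
    unfold expectedTime
    apply lintegral_congr_ae
    have hae : ∀ᵐ ω ∂(trials p), ¬ ∀ n, ω n = false := by
      rw [ae_iff]
      simp only [not_not]
      exact trials_never p hp
    filter_upwards [hae] with ω hω
    obtain ⟨n, hn⟩ := exists_firstAt hω
    rw [X.detectionTime_eq_of_firstAt hn, tsum_eq_single n]
    · rw [Set.indicator_of_mem hn]
    · intro m hm
      rw [Set.indicator_of_notMem]
      intro hmem
      exact hm (firstAt_disjoint hmem hn)
  rw [h1, lintegral_tsum]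
  · apply tsum_congr
    intro n
    rw [lintegral_indicator_const (measurableSet_firstAt n), trials_firstAt, mul_comm]
  · intro n
    exact (measurable_const.indicator (measurableSet_firstAt n)).aemeasurable

/-! ## Cyclic monotone trajectories: the lower bound -/

/-- A second order linear recurrence inequality with complex characteristic roots has no positive
solution. -/
lemma no_positive_solution {α β : ℝ} (hα : 0 < α) (hdisc : β ^ 2 < 4 * α) (u : ℕ → ℝ)
    (hu : ∀ k, 0 < u k) (hrec : ∀ k, α * u (k + 2) ≤ β * u (k + 1) - u k) : False := by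
  set R : ℕ → ℝ := fun k => u (k + 1) / u k with hR
  have hRpos : ∀ k, 0 < R k := fun k => div_pos (hu _) (hu _)
  set η : ℝ := 1 - β ^ 2 / (4 * α) with hη
  have hηpos : 0 < η := by
    rw [hη, sub_pos, div_lt_one (by positivity)]; exact hdisc
  have hstep : ∀ k, α * R k * (R (k + 1) - R k) ≤ -η := by
    intro k
    have h1 : R (k + 1) * R k = u (k + 2) / u k := by
      simp only [hR]
      have := (hu (k + 1)).ne'
      have := (hu k).ne'
      field_simp
    have h2 : α * (R (k + 1) * R k) ≤ β * R k - 1 := by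
      rw [h1]
      have h3 := hrec k
      have h4 : (β * u (k + 1) - u k) / u k = β * R k - 1 := by
        simp only [hR]
        have := (hu k).ne'
        field_simp
      rw [← h4, ← mul_div_assoc]
      exact (div_le_div_iff_of_pos_right (hu k)).2 h3
    have h5 : η ≤ α * R k ^ 2 - β * R k + 1 := by
      have h6 : α * R k ^ 2 - β * R k + 1 - η = α * (R k - β / (2 * α)) ^ 2 := by
        rw [hη]; field_simp; ring
      have h7 : 0 ≤ α * (R k - β / (2 * α)) ^ 2 := by positivity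
      linarith
    nlinarith
  have hdec : ∀ k, R k ≤ R 0 := by
    intro k
    induction k with
    | zero => exact le_rfl
    | succ k ih =>
      have h1 := hstep k
      have h2 : 0 < α * R k := mul_pos hα (hRpos k)
      have h3 : R (k + 1) - R k ≤ 0 := by
        by_contra h
        push Not at h
        have := mul_pos h2 h
        linarith
      linarith
  have hlin : ∀ k : ℕ, R k ≤ R 0 - k * (η / (α * R 0)) := by
    intro k
    induction k with
    | zero => simp
    | succ k ih =>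
      have h1 := hstep k
      have h2 : 0 < α * R k := mul_pos hα (hRpos k)
      have h3 : R (k + 1) - R k ≤ -(η / (α * R k)) := by
        rw [← neg_div, le_div_iff₀ h2]; linarith
      have h4 : η / (α * R 0) ≤ η / (α * R k) := by
        apply div_le_div_of_nonneg_left hηpos.le h2
        exact mul_le_mul_of_nonneg_left (hdec k) hα.le
      push_cast
      linarith
  have hpos : 0 < η / (α * R 0) := div_pos hηpos (mul_pos hα (hRpos 0))
  obtain ⟨n, hn⟩ := exists_nat_gt (R 0 / (η / (α * R 0)))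
  have h1 := hlin n
  rw [div_lt_iff₀ hpos] at hn
  have h2 := hRpos n
  linarith

lemma summable_and_tsum_le {f : ℕ → ℝ} (hf : ∀ n, 0 ≤ f n) {B : ℝ} (hB : 0 ≤ B)
    (h : ∑' n, ENNReal.ofReal (f n) ≤ ENNReal.ofReal B) : Summable f ∧ ∑' n, f n ≤ B := by
  have hs : Summable f := by
    have h1 : ∑' n, ENNReal.ofReal (f n) ≠ ⊤ := ne_top_of_le_ne_top ENNReal.ofReal_ne_top h
    have h2 := ENNReal.summable_toReal h1
    refine h2.congr fun n => ?_
    exact ENNReal.toReal_ofReal (hf n)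
  refine ⟨hs, ?_⟩
  rw [← ENNReal.ofReal_tsum_of_nonneg hf hs] at h
  exact (ENNReal.ofReal_le_ofReal_iff hB).1 h

lemma expectedTime_le_of_CR {p : unitInterval} {c : ℝ} (hc : X.CR p ≤ ENNReal.ofReal c)
    {h : ℝ} (hh : 1 ≤ |h|) :
    ENNReal.ofReal p * X.expectedTime p h ≤ ENNReal.ofReal (c * |h|) := by
  have h0 : 0 < |h| := lt_of_lt_of_le one_pos hh
  have h1 : ENNReal.ofReal p * X.expectedTime p h / ENNReal.ofReal |h| ≤ ENNReal.ofReal c := by
    refine le_trans ?_ hc
    unfold CR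
    exact le_iSup₂ (f := fun (h : ℝ) (_ : 1 ≤ |h|) =>
      ENNReal.ofReal (p : ℝ) * X.expectedTime p h / ENNReal.ofReal |h|) h hh
  rw [ENNReal.ofReal_mul' (abs_nonneg h)]
  have h2 : ENNReal.ofReal |h| ≠ 0 := by
    rw [Ne, ENNReal.ofReal_eq_zero]; linarith
  exact (ENNReal.div_le_iff h2 ENNReal.ofReal_ne_top).1 h1

lemma expectedTime_eq_top {p : unitInterval} (hp : 0 < (p : ℝ)) {h : ℝ}
    (he : X.passes h = ∅) : X.expectedTime p h = ⊤ := by
  rw [X.expectedTime_eq p hp, ← top_le_iff]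
  refine le_trans ?_ (ENNReal.le_tsum 0)
  rw [X.passTime_eq_top he, pow_zero, mul_one, ENNReal.mul_top]
  rw [Ne, ENNReal.ofReal_eq_zero]; linarith

/-- Data of a cyclic monotone trajectory, numbered from `0`. -/
lemma cyclic_data (hX : X.IsCyclicMonotone) : ∃ (σ : ℝ) (x : ℕ → ℝ), σ * σ = 1 ∧
    (∀ i, 0 < x i) ∧ (∀ i, x i < x (i + 2)) ∧ (∀ i, X.y (i + 1) = σ * (-1) ^ i * x i) := by
  obtain ⟨x, h1, h2, h3⟩ := hX
  rcases h3 with h3 | h3
  · refine ⟨1, fun i => x (i + 1), by norm_num, fun i => h1 _ (by omega),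
      fun i => h2 _ (by omega), fun i => ?_⟩
    rw [h3 (i + 1) (by omega)]
    ring
  · refine ⟨-1, fun i => x (i + 1), by norm_num, fun i => h1 _ (by omega),
      fun i => h2 _ (by omega), fun i => ?_⟩
    rw [h3 (i + 1) (by omega)]
    ring

section cyclic

variable {X} {σ : ℝ} {x : ℕ → ℝ} (hσ : σ * σ = 1) (hx0 : ∀ i, 0 < x i)
  (hx2 : ∀ i, x i < x (i + 2)) (hy : ∀ i, X.y (i + 1) = σ * (-1) ^ i * x i)

/-- partial sums -/
def psum (x : ℕ → ℝ) (n : ℕ) : ℝ := ∑ j ∈ Finset.range n, x j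

lemma psum_succ (x : ℕ → ℝ) (n : ℕ) : psum x (n + 1) = psum x n + x n := by
  simp [psum, Finset.sum_range_succ]

lemma neg_one_pow_mul_self (k : ℕ) : ((-1 : ℝ) ^ k) * ((-1 : ℝ) ^ k) = 1 := by
  rw [← mul_pow]; norm_num

include hσ hx0 hy in
lemma abs_y_succ_sub (n : ℕ) : |X.y (n + 2) - X.y (n + 1)| = x (n + 1) + x n := by
  rw [hy (n + 1), hy n]
  have h1 : σ * (-1) ^ (n + 1) * x (n + 1) - σ * (-1) ^ n * x n =
      -(σ * (-1) ^ n) * (x (n + 1) + x n) := by ring
  have h2 : |σ| = 1 := by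
    have : |σ| * |σ| = 1 := by rw [← abs_mul, hσ, abs_one]
    nlinarith [abs_nonneg σ]
  rw [h1, abs_mul, abs_neg, abs_mul, h2, abs_pow, abs_neg, abs_one, one_pow, one_mul, one_mul,
    abs_of_pos (add_pos (hx0 _) (hx0 _))]

include hσ hx0 hy in
lemma time_cyclic (n : ℕ) : X.time (n + 1) = 2 * psum x (n + 1) - x n := by
  induction n with
  | zero =>
    rw [time_succ, time_zero, X.y_zero, hy 0, psum_succ]
    have h2 : |σ| = 1 := by
      have : |σ| * |σ| = 1 := by rw [← abs_mul, hσ, abs_one]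
      nlinarith [abs_nonneg σ]
    simp [psum, abs_mul, h2, abs_of_pos (hx0 0)]
    ring
  | succ n ih =>
    rw [time_succ, ih, abs_y_succ_sub hσ hx0 hy, psum_succ x (n + 1)]
    ring

include hx2 in
lemma le_add_two_mul (k m : ℕ) : x k ≤ x (k + 2 * m) := by
  induction m with
  | zero => simp
  | succ m ih =>
    refine ih.trans ?_
    have := (hx2 (k + 2 * m)).le
    rwa [show k + 2 * m + 2 = k + 2 * (m + 1) by ring] at this

include hσ hx0 hy in
/-- The passes over a point beyond the turning point `x k`. -/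
lemma passes_cyclic {k : ℕ} {h : ℝ} (hh : 0 < h)
    (hlow : ∀ j, j % 2 = k % 2 → h ≤ x j → k + 2 ≤ j) {t : ℝ}
    (ht : t ∈ X.passes (σ * (-1) ^ k * h)) :
    ∃ n, t = 2 * psum x (k + 2 + n) + (-1) ^ n * h := by
  rw [mem_passes_iff] at ht
  obtain ⟨i, hi, rfl⟩ := ht
  -- normalise the side
  set s : ℝ := σ * (-1) ^ k with hs
  have hss : s * s = 1 := by
    have : s * s = (σ * σ) * ((-1) ^ k * (-1) ^ k) := by rw [hs]; ring
    rw [this, hσ, neg_one_pow_mul_self, one_mul]
  have hs1 : s = 1 ∨ s = -1 := by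
    have : (s - 1) * (s + 1) = 0 := by linear_combination hss
    rcases mul_eq_zero.1 this with h | h
    · left; linarith
    · right; linarith
  have habs : ∀ z : ℝ, |s * h - z| = |h - s * z| := by
    intro z
    rcases hs1 with h1 | h1
    · rw [h1]; simp
    · rw [h1, ← abs_neg]; congr 1; ring
  have hIcc : ∀ z w : ℝ, s * h ∈ Set.uIcc z w → h ∈ Set.uIcc (s * z) (s * w) := by
    intro z w hm
    rw [Set.mem_uIcc] at hm ⊢
    rcases hs1 with h1 | h1
    · rw [h1] at hm ⊢; simpa using hm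
    · rw [h1] at hm ⊢
      rcases hm with ⟨ha, hb⟩ | ⟨ha, hb⟩
      · right; constructor <;> linarith
      · left; constructor <;> linarith
  have hi' := hIcc _ _ hi
  rw [habs]
  rcases i with _ | j
  · exfalso
    rw [X.y_zero, mul_zero, hy 0, Set.mem_uIcc] at hi'
    have h1 : s * (σ * (-1) ^ 0 * x 0) = (-1) ^ k * x 0 := by
      rw [hs]; linear_combination ((-1) ^ k * x 0) * hσ
    rw [h1] at hi'
    rcases Nat.even_or_odd k with hk | hk
    · rw [hk.neg_one_pow, one_mul] at hi'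
      have h2 : h ≤ x 0 := by
        rcases hi' with ⟨_, h2⟩ | ⟨_, h2⟩
        · exact h2
        · linarith
      have := hlow 0 (by rw [Nat.even_iff] at hk; omega) h2
      omega
    · rw [hk.neg_one_pow] at hi'
      have := hx0 0
      rcases hi' with ⟨_, h2⟩ | ⟨_, h2⟩ <;> linarith
  · have h1 : s * X.y (j + 1) = (-1) ^ (k + j) * x j := by
      rw [hs, hy j, pow_add]; linear_combination ((-1) ^ k * (-1) ^ j * x j) * hσ
    have h2 : s * X.y (j + 1 + 1) = -((-1) ^ (k + j) * x (j + 1)) := by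
      rw [hs, hy (j + 1)]
      linear_combination (-((-1) ^ k * (-1) ^ j * x (j + 1))) * hσ
    rw [h1, h2, Set.mem_uIcc] at hi'
    rw [h1, time_cyclic hσ hx0 hy]
    have hj := hx0 j
    have hj1 := hx0 (j + 1)
    rcases Nat.even_or_odd (k + j) with hk | hk
    · rw [hk.neg_one_pow] at hi' ⊢
      have h3 : h ≤ x j := by
        rcases hi' with ⟨_, h3⟩ | ⟨_, h3⟩ <;> linarith
      have h4 := hlow j (by rw [Nat.even_iff] at hk; omega) h3
      refine ⟨j + 1 - (k + 2), ?_⟩
      rw [show k + 2 + (j + 1 - (k + 2)) = j + 1 by omega]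
      have h5 : Odd (j + 1 - (k + 2)) := by
        rw [Nat.even_iff] at hk; rw [Nat.odd_iff]; omega
      rw [h5.neg_one_pow, one_mul, abs_of_nonpos (by linarith)]
      ring
    · rw [hk.neg_one_pow] at hi' ⊢
      have h3 : h ≤ x (j + 1) := by
        rcases hi' with ⟨_, h3⟩ | ⟨_, h3⟩ <;> linarith
      have h4 := hlow (j + 1) (by rw [Nat.odd_iff] at hk; omega) h3
      refine ⟨j + 1 - (k + 2), ?_⟩
      rw [show k + 2 + (j + 1 - (k + 2)) = j + 1 by omega]
      have h5 : Even (j + 1 - (k + 2)) := by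
        rw [Nat.odd_iff] at hk; rw [Nat.even_iff]; omega
      rw [h5.neg_one_pow, one_mul, abs_of_nonneg (by linarith)]
      ring

lemma strictMono_passes {k : ℕ} {h : ℝ} (hx0 : ∀ i, 0 < x i) (hx2 : ∀ i, x i < x (i + 2))
    (hh : 0 < h) (hk : h < x (k + 2)) :
    StrictMono (fun n => 2 * psum x (k + 2 + n) + (-1) ^ n * h) := by
  apply strictMono_nat_of_lt_succ
  intro n
  rw [show k + 2 + (n + 1) = k + 2 + n + 1 by ring, psum_succ]
  rcases Nat.even_or_odd n with hn | hn
  · rw [hn.neg_one_pow, hn.add_one.neg_one_pow]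
    obtain ⟨m, rfl⟩ := hn
    have := le_add_two_mul hx2 (k + 2) m
    rw [show k + 2 + (m + m) = k + 2 + 2 * m by ring]
    linarith
  · rw [hn.neg_one_pow, hn.add_one.neg_one_pow]
    have := hx0 (k + 2 + n)
    linarith


include hσ hx0 hy in
/-- The turning points on each side are at distance at least `1` eventually. -/
lemma exists_one_le {p : unitInterval} (hp : 0 < (p : ℝ)) (hfin : X.CR p ≠ ⊤) (e : ℕ)
    (he : e < 2) : ∃ m, 1 ≤ x (e + 2 * m) := by
  by_contra hcon
  push Not at hcon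
  have hempty : X.passes (σ * (-1) ^ e * 1) = ∅ := by
    rw [Set.eq_empty_iff_forall_notMem]
    intro t ht
    have hlow : ∀ j, j % 2 = e % 2 → (1 : ℝ) ≤ x j → e + 2 ≤ j := by
      intro j hj hxj
      exfalso
      have h1 := hcon (j / 2)
      rw [show e + 2 * (j / 2) = j by omega] at h1
      linarith
    obtain ⟨n, hn⟩ := passes_cyclic hσ hx0 hy one_pos hlow ht
    -- use the same description of the legs again: there is no leg that covers the point
    rw [mem_passes_iff] at ht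
    obtain ⟨i, hi, _⟩ := ht
    have hle : ∀ i, (-1) ^ (e + i) * x i < 1 := by
      intro i
      rcases Nat.even_or_odd (e + i) with hk | hk
      · rw [hk.neg_one_pow, one_mul]
        have h1 := hcon (i / 2)
        rw [Nat.even_iff] at hk
        rwa [show e + 2 * (i / 2) = i by omega] at h1
      · rw [hk.neg_one_pow]
        have := hx0 i
        linarith
    have hle' : ∀ i, σ * (-1) ^ e * X.y i < 1 := by
      intro i
      rcases i with _ | j
      · rw [X.y_zero, mul_zero]; exact one_pos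
      · rw [hy j]
        have h1 := hle j
        rw [pow_add] at h1
        have h2 : σ * (-1) ^ e * (σ * (-1) ^ j * x j) = (-1) ^ e * (-1) ^ j * x j := by
          linear_combination ((-1) ^ e * (-1) ^ j * x j) * hσ
        rw [h2]; exact h1
    have hs1 : σ * (-1) ^ e = 1 ∨ σ * (-1) ^ e = -1 := by
      have hss : (σ * (-1) ^ e) * (σ * (-1) ^ e) = 1 := by
        have : (σ * (-1) ^ e) * (σ * (-1) ^ e) = (σ * σ) * ((-1) ^ e * (-1) ^ e) := by ring
        rw [this, hσ, neg_one_pow_mul_self, one_mul]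
      have : (σ * (-1) ^ e - 1) * (σ * (-1) ^ e + 1) = 0 := by linear_combination hss
      rcases mul_eq_zero.1 this with h | h
      · left; linarith
      · right; linarith
    rw [Set.mem_uIcc] at hi
    have ha := hle' i
    have hb := hle' (i + 1)
    rcases hs1 with h1 | h1
    · rw [h1] at hi ha hb
      rcases hi with ⟨h2, h3⟩ | ⟨h2, h3⟩ <;> linarith
    · rw [h1] at hi ha hb
      rcases hi with ⟨h2, h3⟩ | ⟨h2, h3⟩ <;> linarith
  apply hfin
  rw [← top_le_iff]
  have habs : |σ * (-1) ^ e * 1| = 1 := by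
    have h2 : |σ| = 1 := by
      have : |σ| * |σ| = 1 := by rw [← abs_mul, hσ, abs_one]
      nlinarith [abs_nonneg σ]
    simp [abs_mul, h2]
  have h1 : ENNReal.ofReal (p : ℝ) * X.expectedTime p (σ * (-1) ^ e * 1) /
      ENNReal.ofReal |σ * (-1) ^ e * 1| ≤ X.CR p := by
    unfold CR
    exact le_iSup₂ (f := fun (h : ℝ) (_ : 1 ≤ |h|) =>
      ENNReal.ofReal (p : ℝ) * X.expectedTime p h / ENNReal.ofReal |h|) _ habs.ge
  rw [habs, X.expectedTime_eq_top hp hempty, ENNReal.ofReal_one, div_one, ENNReal.mul_top] at h1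
  · exact h1
  · rw [Ne, ENNReal.ofReal_eq_zero]; linarith

include hσ hx0 hx2 hy in
/-- The main inequality at a point beyond the turning point `x k`. -/
lemma ineq_beyond {p : unitInterval} (hp : 0 < (p : ℝ)) (hp1 : (p : ℝ) < 1) {c : ℝ} (hc0 : 0 ≤ c)
    (hc : X.CR p ≤ ENNReal.ofReal c) {k : ℕ} {h : ℝ} (h1 : 1 ≤ h) (hk : x k < h)
    (hk2 : h < x (k + 2)) :
    Summable (fun n => (1 - (p : ℝ)) ^ n * psum x (k + 2 + n)) ∧
    2 * (p : ℝ) ^ 2 * ∑' n, (1 - (p : ℝ)) ^ n * psum x (k + 2 + n) ≤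
      (c - (p : ℝ) ^ 2 / (2 - p)) * h := by
  have hh : 0 < h := by linarith
  have habs : |σ * (-1) ^ k * h| = h := by
    have h2 : |σ| = 1 := by
      have : |σ| * |σ| = 1 := by rw [← abs_mul, hσ, abs_one]
      nlinarith [abs_nonneg σ]
    simp [abs_mul, h2, abs_of_pos hh]
  have hE := X.expectedTime_le_of_CR hc (h := σ * (-1) ^ k * h) (by rw [habs]; exact h1)
  rw [habs] at hE
  have hlow : ∀ j, j % 2 = k % 2 → h ≤ x j → k + 2 ≤ j := by
    intro j hj hxj
    by_contra hlt
    have hjk : ∃ m, k = j + 2 * m := ⟨(k - j) / 2, by omega⟩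
    obtain ⟨m, rfl⟩ := hjk
    have := le_add_two_mul hx2 j m
    linarith
  set τ : ℕ → ℝ := fun n => 2 * psum x (k + 2 + n) + (-1) ^ n * h with hτ
  have hmono : StrictMono τ := strictMono_passes hx0 hx2 hh hk2
  have hps0 : 0 ≤ psum x (k + 2 + 0) := Finset.sum_nonneg fun i _ => (hx0 i).le
  have hτ0 : ∀ n, 0 ≤ τ n := by
    intro n
    refine le_trans ?_ (hmono.monotone (Nat.zero_le n))
    simp only [hτ, pow_zero, one_mul]
    linarith
  set q : ℝ := 1 - (p : ℝ) with hq
  have hq0 : 0 < q := by rw [hq]; linarith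
  have hq1 : q < 1 := by rw [hq]; linarith
  have hsum : ∑' n, ENNReal.ofReal ((p : ℝ) * (p * q ^ n * τ n)) ≤ ENNReal.ofReal (c * h) := by
    refine le_trans ?_ hE
    rw [X.expectedTime_eq p hp, ← ENNReal.tsum_mul_left]
    apply ENNReal.tsum_le_tsum
    intro n
    rw [ENNReal.ofReal_mul hp.le, ENNReal.ofReal_mul (by positivity), ENNReal.ofReal_mul hp.le,
      ENNReal.ofReal_pow hq0.le]
    gcongr
    exact X.le_passTime hmono
      (fun t ht => passes_cyclic hσ hx0 hy hh hlow ht) n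
  have hf0 : ∀ n, 0 ≤ (p : ℝ) * (p * q ^ n * τ n) := by
    intro n
    have := hτ0 n
    positivity
  obtain ⟨hS, hle⟩ := summable_and_tsum_le hf0 (mul_nonneg hc0 hh.le) hsum
  have habsq : |(-q)| < 1 := by rw [abs_neg, abs_of_pos hq0]; exact hq1
  have hgS : Summable (fun n : ℕ => (p : ℝ) ^ 2 * h * (-q) ^ n) :=
    (summable_geometric_of_abs_lt_one habsq).mul_left _
  have hgv : ∑' n : ℕ, (p : ℝ) ^ 2 * h * (-q) ^ n = (p : ℝ) ^ 2 * h / (2 - p) := by
    rw [tsum_mul_left, tsum_geometric_of_abs_lt_one habsq]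
    rw [show (1 - -q) = 2 - (p : ℝ) by rw [hq]; ring]
    rfl
  have hdiff : ∀ n, (p : ℝ) * (p * q ^ n * τ n) - (p : ℝ) ^ 2 * h * (-q) ^ n =
      (2 * (p : ℝ) ^ 2) * (q ^ n * psum x (k + 2 + n)) := by
    intro n
    simp only [hτ]
    rw [neg_pow q n]
    ring
  have hSS := hS.sub hgS
  have hSS' : Summable (fun n => (2 * (p : ℝ) ^ 2) * (q ^ n * psum x (k + 2 + n))) :=
    hSS.congr hdiff
  have hne : (2 * (p : ℝ) ^ 2) ≠ 0 := by positivity
  refine ⟨(summable_mul_left_iff hne).1 hSS', ?_⟩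
  rw [← tsum_mul_left, ← tsum_congr hdiff, hS.tsum_sub hgS, hgv]
  have : (c - (p : ℝ) ^ 2 / (2 - p)) * h = c * h - (p : ℝ) ^ 2 * h / (2 - p) := by ring
  rw [this]
  linarith

include hσ hx0 hx2 hy in
/-- The main inequality at the turning point `x k`. -/
lemma ineq_turn {p : unitInterval} (hp : 0 < (p : ℝ)) (hp1 : (p : ℝ) < 1) {c : ℝ} (hc0 : 0 ≤ c)
    (hc : X.CR p ≤ ENNReal.ofReal c) {k : ℕ} (h1 : 1 ≤ x k) :
    Summable (fun n => (1 - (p : ℝ)) ^ n * psum x (k + 2 + n)) ∧
    2 * (p : ℝ) ^ 2 * ∑' n, (1 - (p : ℝ)) ^ n * psum x (k + 2 + n) ≤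
      (c - (p : ℝ) ^ 2 / (2 - p)) * x k := by
  have key : ∀ h, x k < h → h < x (k + 2) →
      Summable (fun n => (1 - (p : ℝ)) ^ n * psum x (k + 2 + n)) ∧
      2 * (p : ℝ) ^ 2 * ∑' n, (1 - (p : ℝ)) ^ n * psum x (k + 2 + n) ≤
      (c - (p : ℝ) ^ 2 / (2 - p)) * h := fun h ha hb =>
    ineq_beyond hσ hx0 hx2 hy hp hp1 hc0 hc (by linarith) ha hb
  have hlt := hx2 k
  refine ⟨(key ((x k + x (k + 2)) / 2) (by linarith) (by linarith)).1, ?_⟩
  have ht : Tendsto (fun h : ℝ => (c - (p : ℝ) ^ 2 / (2 - p)) * h) (nhdsWithin (x k) (Ioi (x k)))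
      (nhds ((c - (p : ℝ) ^ 2 / (2 - p)) * x k)) := by
    apply tendsto_nhdsWithin_of_tendsto_nhds
    exact (continuous_const.mul continuous_id).tendsto _
  refine ge_of_tendsto ht ?_
  filter_upwards [Ioo_mem_nhdsGT hlt] with h hh
  exact (key h hh.1 hh.2).2

end cyclic

/-- Every cyclic monotone trajectory has competitive ratio at least `8 + p² / (2 - p)`. -/
theorem cyclic_lower_bound {p : unitInterval} (hp : 0 < (p : ℝ)) (hp1 : (p : ℝ) < 1)
    (hX : X.IsCyclicMonotone) : ENNReal.ofReal (8 + (p : ℝ) ^ 2 / (2 - p)) ≤ X.CR p := by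
  obtain ⟨σ, x, hσ, hx0, hx2, hy⟩ := X.cyclic_data hX
  by_contra hlt
  push Not at hlt
  have hfin : X.CR p ≠ ⊤ := (lt_of_lt_of_le hlt le_top).ne
  set c : ℝ := (X.CR p).toReal with hc
  have hc0 : 0 ≤ c := ENNReal.toReal_nonneg
  have hcc : X.CR p = ENNReal.ofReal c := (ENNReal.ofReal_toReal hfin).symm
  have hcle : X.CR p ≤ ENNReal.ofReal c := hcc.le
  have h2p : 0 < 2 - (p : ℝ) := by linarith
  have hclt : c < 8 + (p : ℝ) ^ 2 / (2 - p) := by
    rw [hcc] at hlt
    exact (ENNReal.ofReal_lt_ofReal_iff (by positivity)).1 hlt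
  obtain ⟨m0, hm0⟩ := exists_one_le hσ hx0 hy hp hfin 0 (by norm_num)
  obtain ⟨m1, hm1⟩ := exists_one_le hσ hx0 hy hp hfin 1 (by norm_num)
  have hbig : ∀ k, 2 * m0 + 2 * m1 + 1 ≤ k → 1 ≤ x k := by
    intro k hk
    rcases Nat.even_or_odd k with hke | hko
    · rw [Nat.even_iff] at hke
      have := le_add_two_mul hx2 (0 + 2 * m0) ((k - 2 * m0) / 2)
      rw [show 0 + 2 * m0 + 2 * ((k - 2 * m0) / 2) = k by omega] at this
      linarith
    · rw [Nat.odd_iff] at hko
      have := le_add_two_mul hx2 (1 + 2 * m1) ((k - (1 + 2 * m1)) / 2)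
      rw [show 1 + 2 * m1 + 2 * ((k - (1 + 2 * m1)) / 2) = k by omega] at this
      linarith
  set q : ℝ := 1 - (p : ℝ) with hq
  have hq0 : 0 < q := by rw [hq]; linarith
  set K : ℕ := 2 * m0 + 2 * m1 + 1 with hK
  set U : ℕ → ℝ := fun k => ∑' n, q ^ n * psum x (k + n) with hU
  set c' : ℝ := c - (p : ℝ) ^ 2 / (2 - p) with hc'
  have hUs : ∀ k, K + 2 ≤ k → Summable (fun n => q ^ n * psum x (k + n)) := by
    intro k hk
    have := (ineq_turn hσ hx0 hx2 hy hp hp1 hc0 hcle (k := k - 2) (hbig (k - 2) (by omega))).1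
    rwa [show k - 2 + 2 = k by omega] at this
  have hUi : ∀ k, K ≤ k → 2 * (p : ℝ) ^ 2 * U (k + 2) ≤ c' * x k := by
    intro k hk
    exact (ineq_turn hσ hx0 hx2 hy hp hp1 hc0 hcle (hbig k hk)).2
  have hUpos : ∀ k, K + 2 ≤ k → 0 < U k := by
    intro k hk
    have hnn : ∀ n, 0 ≤ q ^ n * psum x (k + n) := fun n =>
      mul_nonneg (pow_nonneg hq0.le n) (Finset.sum_nonneg fun i _ => (hx0 i).le)
    refine (hUs k hk).tsum_pos hnn 0 ?_
    rw [pow_zero, one_mul]
    apply Finset.sum_pos (fun i _ => hx0 i)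
    simp only [Finset.nonempty_range_iff]
    omega
  have hUrec : ∀ k, K + 2 ≤ k → U k = psum x k + q * U (k + 1) := by
    intro k hk
    simp only [hU]
    rw [(hUs k hk).tsum_eq_zero_add, pow_zero, one_mul, add_zero, ← tsum_mul_left]
    congr 1
    apply tsum_congr
    intro n
    rw [pow_succ, show k + (n + 1) = k + 1 + n by ring]
    ring
  have hc'pos : 0 < c' := by
    have h1 := hUi K le_rfl
    have h2 := hUpos (K + 2) le_rfl
    have h3 := hx0 K
    have h4 : 0 < 2 * (p : ℝ) ^ 2 * U (K + 2) := by positivity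
    by_contra h5
    push Not at h5
    have : c' * x K ≤ 0 := mul_nonpos_of_nonpos_of_nonneg h5 h3.le
    linarith
  have hc'8 : c' < 8 := by rw [hc']; linarith
  refine no_positive_solution (α := (2 * (p : ℝ) ^ 2 + c' * q) / c') (β := 1 + q) (by positivity) ?_
    (fun k => U (K + 2 + k)) (fun k => hUpos _ (by omega)) ?_
  · rw [← mul_div_assoc, lt_div_iff₀ hc'pos]
    have h1 : (p : ℝ) = 1 - q := by rw [hq]; ring
    have h2 : 0 < (8 - c') * (p : ℝ) ^ 2 := mul_pos (by linarith) (by positivity)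
    rw [h1] at h2 ⊢
    nlinarith
  · intro k
    have h1 := hUi (K + 2 + k) (by omega)
    have h2 := hUrec (K + 2 + k) (by omega)
    have h3 := hUrec (K + 2 + k + 1) (by omega)
    have h4 := psum_succ x (K + 2 + k)
    have h5 : x (K + 2 + k) = (U (K + 2 + k + 1) - q * U (K + 2 + k + 1 + 1)) -
        (U (K + 2 + k) - q * U (K + 2 + k + 1)) := by linarith
    rw [h5] at h1
    rw [show K + 2 + (k + 2) = K + 2 + k + 1 + 1 by ring, show K + 2 + (k + 1) = K + 2 + k + 1 by ring]
    rw [show K + 2 + k + 2 = K + 2 + k + 1 + 1 by ring] at h1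
    rw [div_mul_eq_mul_div, div_le_iff₀ hc'pos]
    linarith

/-! ## The trajectory with small zigzags -/

section zigzag

/-- `z r i = r ^ (i - 2)` -/
noncomputable def z (r : ℝ) (i : ℕ) : ℝ := r ^ i * (r ^ 2)⁻¹

/-- The turning points: `0`, then for each `i` the points `z i (1 + δ)`, `z i`, `z (i + 2)` on the
positive side for even `i` and on the negative side for odd `i`. -/
noncomputable def zy (r δ : ℝ) : ℕ → ℝ
  | 0 => 0
  | n + 1 => if n % 3 = 0 then (-1) ^ (n / 3) * (z r (n / 3) * (1 + δ))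
      else if n % 3 = 1 then (-1) ^ (n / 3) * z r (n / 3)
      else (-1) ^ (n / 3) * z r (n / 3 + 2)

lemma zy_zero (r δ : ℝ) : zy r δ 0 = 0 := rfl

lemma zy_one (r δ : ℝ) (i : ℕ) : zy r δ (3 * i + 1) = (-1) ^ i * (z r i * (1 + δ)) := by
  have h1 : (3 * i) % 3 = 0 := by omega
  have h2 : (3 * i) / 3 = i := by omega
  simp [zy, h1, h2]

lemma zy_two (r δ : ℝ) (i : ℕ) : zy r δ (3 * i + 2) = (-1) ^ i * z r i := by
  have h1 : (3 * i + 1) % 3 = 1 := by omega
  have h2 : (3 * i + 1) / 3 = i := by omega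
  simp [zy, h1, h2]

lemma zy_three (r δ : ℝ) (i : ℕ) : zy r δ (3 * i + 3) = (-1) ^ i * z r (i + 2) := by
  have h1 : (3 * i + 2) % 3 = 2 := by omega
  have h2 : (3 * i + 2) / 3 = i := by omega
  simp [zy, h1, h2]

/-- `ζ 0 = 0`, `ζ i = z (i + 1)` for `i ≥ 1` -/
noncomputable def zeta (r : ℝ) (i : ℕ) : ℝ := if i = 0 then 0 else z r (i + 1)

lemma zy_mul (r δ : ℝ) (i : ℕ) : zy r δ (3 * i) = -((-1) ^ i * zeta r i) := by
  rcases i with _ | j
  · simp [zy, zeta]
  · rw [show 3 * (j + 1) = 3 * j + 3 by ring, zy_three]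
    simp only [zeta, Nat.add_eq_zero_iff, one_ne_zero, and_false, if_false]
    rw [pow_succ]; ring_nf

variable {r δ : ℝ} (hr : 1 < r) (hδ : 0 < δ)

include hr in
lemma z_pos (i : ℕ) : 0 < z r i := by
  unfold z; positivity

lemma z_succ (r : ℝ) (i : ℕ) : z r (i + 1) = r * z r i := by
  unfold z; rw [pow_succ]; ring

include hr in
lemma z_lt_succ (i : ℕ) : z r i < z r (i + 1) := by
  rw [z_succ r]
  have := z_pos hr i
  nlinarith

include hr in
lemma z_strictMono : StrictMono (z r) := strictMono_nat_of_lt_succ (z_lt_succ hr)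

include hr in
lemma zeta_nonneg (i : ℕ) : 0 ≤ zeta r i := by
  unfold zeta
  split_ifs
  · exact le_rfl
  · exact (z_pos hr _).le

lemma d0 (r δ : ℝ) (i : ℕ) :
    zy r δ (3 * i + 1) - zy r δ (3 * i) = (-1) ^ i * (z r i * (1 + δ) + zeta r i) := by
  rw [zy_one, zy_mul]; ring

lemma d1 (r δ : ℝ) (i : ℕ) :
    zy r δ (3 * i + 2) - zy r δ (3 * i + 1) = -((-1) ^ i * (δ * z r i)) := by
  rw [zy_one, zy_two]; ring

lemma d2 (r δ : ℝ) (i : ℕ) :
    zy r δ (3 * i + 3) - zy r δ (3 * i + 2) = (-1) ^ i * (z r (i + 2) - z r i) := by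
  rw [zy_three, zy_two]; ring

lemma abs_neg_one_pow_mul (i : ℕ) (x : ℝ) : |(-1) ^ i * x| = |x| := by
  rw [abs_mul, abs_pow, abs_neg, abs_one, one_pow, one_mul]

include hr hδ in
lemma abs_d0 (i : ℕ) : |zy r δ (3 * i + 1) - zy r δ (3 * i)| = z r i * (1 + δ) + zeta r i := by
  rw [d0, abs_neg_one_pow_mul, abs_of_pos]
  have := z_pos hr i
  have := zeta_nonneg hr i
  positivity

include hr hδ in
lemma abs_d1 (i : ℕ) : |zy r δ (3 * i + 2) - zy r δ (3 * i + 1)| = δ * z r i := by
  rw [d1, abs_neg, abs_neg_one_pow_mul, abs_of_pos]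
  have := z_pos hr i
  positivity

include hr in
lemma abs_d2 (i : ℕ) : |zy r δ (3 * i + 3) - zy r δ (3 * i + 2)| = z r (i + 2) - z r i := by
  rw [d2, abs_neg_one_pow_mul, abs_of_pos]
  have := z_strictMono hr (show i < i + 2 by omega)
  linarith

lemma three_cases (n : ℕ) : ∃ i, n = 3 * i ∨ n = 3 * i + 1 ∨ n = 3 * i + 2 :=
  ⟨n / 3, by omega⟩

include hr hδ in
lemma zy_turn (n : ℕ) :
    (zy r δ (n + 2) - zy r δ (n + 1)) * (zy r δ (n + 1) - zy r δ n) < 0 := by
  obtain ⟨i, rfl | rfl | rfl⟩ := three_cases n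
  · rw [d1, d0]
    have h1 := z_pos hr i
    have h2 := zeta_nonneg hr i
    have h3 : -((-1) ^ i * (δ * z r i)) * ((-1) ^ i * (z r i * (1 + δ) + zeta r i)) =
        -(((-1) ^ i * (-1) ^ i) * ((δ * z r i) * (z r i * (1 + δ) + zeta r i))) := by ring
    rw [h3, neg_one_pow_mul_self, one_mul, neg_lt_zero]
    positivity
  · rw [show 3 * i + 1 + 2 = 3 * i + 3 by ring, show 3 * i + 1 + 1 = 3 * i + 2 by ring, d2, d1]
    have h1 := z_pos hr i
    have h2 := z_strictMono hr (show i < i + 2 by omega)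
    have h3 : (-1) ^ i * (z r (i + 2) - z r i) * -((-1) ^ i * (δ * z r i)) =
        -(((-1) ^ i * (-1) ^ i) * ((z r (i + 2) - z r i) * (δ * z r i))) := by ring
    rw [h3, neg_one_pow_mul_self, one_mul, neg_lt_zero]
    have : 0 < z r (i + 2) - z r i := by linarith
    positivity
  · rw [show 3 * i + 2 + 2 = 3 * (i + 1) + 1 by ring, show 3 * i + 2 + 1 = 3 * (i + 1) by ring, d0,
      show 3 * (i + 1) = 3 * i + 3 by ring, d2]
    have h1 := z_pos hr (i + 1)
    have h2 := z_strictMono hr (show i < i + 2 by omega)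
    have h4 := zeta_nonneg hr (i + 1)
    have h3 : (-1) ^ (i + 1) * (z r (i + 1) * (1 + δ) + zeta r (i + 1)) *
        ((-1) ^ i * (z r (i + 2) - z r i)) =
        -(((-1) ^ i * (-1) ^ i) *
          ((z r (i + 1) * (1 + δ) + zeta r (i + 1)) * (z r (i + 2) - z r i))) := by
      rw [pow_succ]; ring
    rw [h3, neg_one_pow_mul_self, one_mul, neg_lt_zero]
    have : 0 < z r (i + 2) - z r i := by linarith
    positivity

include hr hδ in
lemma exists_step : ∃ ε : ℝ, 0 < ε ∧ ∀ n, ε ≤ |zy r δ (n + 1) - zy r δ n| := by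
  have h0 := z_pos hr 0
  have hm := (z_strictMono hr).monotone
  refine ⟨min (z r 0) (min (δ * z r 0) ((r ^ 2 - 1) * z r 0)), ?_, ?_⟩
  · have : 0 < r ^ 2 - 1 := by nlinarith
    positivity
  · intro n
    obtain ⟨i, rfl | rfl | rfl⟩ := three_cases n
    · rw [abs_d0 hr hδ]
      refine (min_le_left _ _).trans ?_
      have h1 := hm (Nat.zero_le i)
      have h2 := zeta_nonneg hr i
      have h3 := z_pos hr i
      nlinarith
    · rw [show 3 * i + 1 + 1 = 3 * i + 2 by ring, abs_d1 hr hδ]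
      refine (min_le_right _ _).trans ((min_le_left _ _).trans ?_)
      exact mul_le_mul_of_nonneg_left (hm (Nat.zero_le i)) hδ.le
    · rw [show 3 * i + 2 + 1 = 3 * i + 3 by ring, abs_d2 hr]
      refine (min_le_right _ _).trans ((min_le_right _ _).trans ?_)
      rw [z_succ r, z_succ r]
      have h1 := hm (Nat.zero_le i)
      have h2 : 0 < r ^ 2 - 1 := by nlinarith
      nlinarith

/-- The trajectory with small zigzags. -/
noncomputable def zig (r δ : ℝ) (hr : 1 < r) (hδ : 0 < δ) : Trajectory where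
  y := zy r δ
  y_zero := rfl
  y_one := by
    have h1 := zy_one r δ 0
    rw [mul_zero, zero_add, pow_zero, one_mul] at h1
    rw [h1]
    have := z_pos hr 0
    positivity
  turn := by
    intro i hi
    obtain ⟨n, rfl⟩ : ∃ n, i = n + 1 := ⟨i - 1, by omega⟩
    exact zy_turn hr hδ n
  infinite := by
    obtain ⟨ε, hε, hle⟩ := exists_step hr hδ
    have h1 : Tendsto (fun n : ℕ => (n : ℝ) * ε) atTop atTop :=
      tendsto_natCast_atTop_atTop.atTop_mul_const hε
    refine tendsto_atTop_mono ?_ h1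
    intro n
    calc (n : ℝ) * ε = ∑ i ∈ Finset.range n, ε := by simp
      _ ≤ _ := Finset.sum_le_sum fun i _ => hle i

/-- `B j` is the time at which the searcher would pass the origin before the excursion `j`. -/
noncomputable def B (r δ : ℝ) (j : ℕ) : ℝ := ∑ i ∈ Finset.range j, (2 * δ * z r i + 2 * z r (i + 2))

lemma B_succ (r δ : ℝ) (j : ℕ) : B r δ (j + 1) = B r δ j + (2 * δ * z r j + 2 * z r (j + 2)) := by
  simp [B, Finset.sum_range_succ]

lemma B_zero (r δ : ℝ) : B r δ 0 = 0 := by simp [B]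

lemma zeta_succ (r : ℝ) (j : ℕ) : zeta r (j + 1) = z r (j + 2) := by
  simp [zeta]

lemma zig_time (j : ℕ) : (zig r δ hr hδ).time (3 * j) = B r δ j - zeta r j := by
  induction j with
  | zero => simp [time_zero, B_zero, zeta]
  | succ j ih =>
    rw [show 3 * (j + 1) = 3 * j + 2 + 1 by ring, time_succ, time_succ, time_succ, ih]
    have h0 := abs_d0 hr hδ j
    have h1 := abs_d1 hr hδ j
    have h2 := abs_d2 (δ := δ) hr j
    change B r δ j - zeta r j + |zy r δ (3 * j + 1) - zy r δ (3 * j)| +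
      |zy r δ (3 * j + 2) - zy r δ (3 * j + 1)| + |zy r δ (3 * j + 3) - zy r δ (3 * j + 2)| = _
    rw [h0, h1, h2, B_succ, zeta_succ r]
    ring

lemma mem_uIcc_neg_one_pow (i : ℕ) {x u v : ℝ} (h : (u ≤ x ∧ x ≤ v) ∨ (v ≤ x ∧ x ≤ u)) :
    (-1) ^ i * x ∈ Set.uIcc ((-1) ^ i * u) ((-1) ^ i * v) := by
  rw [Set.mem_uIcc]
  rcases Nat.even_or_odd i with hi | hi
  · rw [hi.neg_one_pow]; simpa using h
  · rw [hi.neg_one_pow]
    rcases h with ⟨h1, h2⟩ | ⟨h1, h2⟩
    · right; constructor <;> linarith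
    · left; constructor <;> linarith

lemma abs_neg_one_pow_sub (i : ℕ) (x u : ℝ) : |(-1) ^ i * x - (-1) ^ i * u| = |x - u| := by
  rw [← mul_sub, abs_neg_one_pow_mul]

lemma P0 (j : ℕ) {ρ : ℝ} (h0 : 0 < ρ) (h1 : ρ ≤ z r j * (1 + δ)) :
    B r δ j + ρ ∈ (zig r δ hr hδ).passes ((-1) ^ j * ρ) := by
  rw [mem_passes_iff]
  refine ⟨3 * j, ?_, ?_⟩
  · change (-1) ^ j * ρ ∈ Set.uIcc (zy r δ (3 * j)) (zy r δ (3 * j + 1))
    rw [zy_one, zy_mul, ← mul_neg]
    apply mem_uIcc_neg_one_pow
    left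
    have := zeta_nonneg hr j
    constructor <;> linarith
  · rw [zig_time]
    change _ = B r δ j - zeta r j + |(-1) ^ j * ρ - zy r δ (3 * j)|
    rw [zy_mul, ← mul_neg, abs_neg_one_pow_sub, abs_of_pos]
    · ring
    · have := zeta_nonneg hr j
      linarith

lemma P1 (j : ℕ) {ρ : ℝ} (h0 : z r j ≤ ρ) (h1 : ρ ≤ z r j * (1 + δ)) :
    B r δ j + 2 * z r j * (1 + δ) - ρ ∈ (zig r δ hr hδ).passes ((-1) ^ j * ρ) := by
  rw [mem_passes_iff]
  refine ⟨3 * j + 1, ?_, ?_⟩
  · change (-1) ^ j * ρ ∈ Set.uIcc (zy r δ (3 * j + 1)) (zy r δ (3 * j + 2))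
    rw [zy_one, zy_two]
    apply mem_uIcc_neg_one_pow
    right
    exact ⟨h0, h1⟩
  · rw [time_succ, zig_time]
    change _ = B r δ j - zeta r j + |zy r δ (3 * j + 1) - zy r δ (3 * j)| +
      |(-1) ^ j * ρ - zy r δ (3 * j + 1)|
    rw [abs_d0 hr hδ, zy_one, abs_neg_one_pow_sub, abs_of_nonpos (by linarith)]
    ring

lemma P2 (j : ℕ) {ρ : ℝ} (h0 : z r j ≤ ρ) (h1 : ρ ≤ z r (j + 2)) :
    B r δ j + 2 * δ * z r j + ρ ∈ (zig r δ hr hδ).passes ((-1) ^ j * ρ) := by
  rw [mem_passes_iff]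
  refine ⟨3 * j + 2, ?_, ?_⟩
  · change (-1) ^ j * ρ ∈ Set.uIcc (zy r δ (3 * j + 2)) (zy r δ (3 * j + 3))
    rw [zy_two, zy_three]
    apply mem_uIcc_neg_one_pow
    left
    exact ⟨h0, h1⟩
  · rw [time_succ, time_succ, zig_time]
    change _ = B r δ j - zeta r j + |zy r δ (3 * j + 1) - zy r δ (3 * j)| +
      |zy r δ (3 * j + 2) - zy r δ (3 * j + 1)| + |(-1) ^ j * ρ - zy r δ (3 * j + 2)|
    rw [abs_d0 hr hδ, abs_d1 hr hδ, zy_two, abs_neg_one_pow_sub, abs_of_nonneg (by linarith)]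
    ring

lemma P3 (j : ℕ) {ρ : ℝ} (h0 : 0 < ρ) (h1 : ρ ≤ z r (j + 2)) :
    B r δ (j + 1) - ρ ∈ (zig r δ hr hδ).passes ((-1) ^ j * ρ) := by
  rw [mem_passes_iff]
  refine ⟨3 * (j + 1), ?_, ?_⟩
  · change (-1) ^ j * ρ ∈ Set.uIcc (zy r δ (3 * (j + 1))) (zy r δ (3 * (j + 1) + 1))
    have e1 : zy r δ (3 * (j + 1)) = (-1) ^ j * z r (j + 2) := by
      rw [show 3 * (j + 1) = 3 * j + 3 by ring, zy_three]
    have e2 : zy r δ (3 * (j + 1) + 1) = (-1) ^ j * (-(z r (j + 1) * (1 + δ))) := by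
      rw [zy_one, pow_succ]; ring
    rw [e1, e2]
    apply mem_uIcc_neg_one_pow
    right
    have := z_pos hr (j + 1)
    have h2 : 0 < z r (j + 1) * (1 + δ) := by positivity
    constructor <;> linarith
  · rw [zig_time, zeta_succ r]
    change _ = B r δ (j + 1) - z r (j + 2) + |(-1) ^ j * ρ - zy r δ (3 * (j + 1))|
    rw [show 3 * (j + 1) = 3 * j + 3 by ring, zy_three, abs_neg_one_pow_sub,
      abs_of_nonpos (by linarith)]
    ring

include hr hδ in
lemma B_lt_succ (j : ℕ) : B r δ j < B r δ (j + 1) := by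
  rw [B_succ]
  have h1 := z_pos hr j
  have h2 := z_pos hr (j + 2)
  have : 0 < 2 * δ * z r j := by positivity
  linarith

include hr hδ in
lemma B_nonneg (j : ℕ) : 0 ≤ B r δ j := by
  have := (strictMono_nat_of_lt_succ (B_lt_succ hr hδ)).monotone (Nat.zero_le j)
  rwa [B_zero] at this

include hr hδ in
/-- `B j ≤ C z j` with `C = 2 (r² + δ) / (r - 1)`. -/
lemma B_le (j : ℕ) : B r δ j ≤ 2 * (r ^ 2 + δ) / (r - 1) * z r j := by
  have hr1 : 0 < r - 1 := by linarith
  induction j with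
  | zero =>
    rw [B_zero]
    have := z_pos hr 0
    positivity
  | succ j ih =>
    have e2 : z r (j + 2) = r * (r * z r j) := by
      rw [show j + 2 = j + 1 + 1 by ring, z_succ r, z_succ r]
    rw [B_succ, e2, z_succ r j]
    have h1 := z_pos hr j
    have h2 : 2 * (r ^ 2 + δ) / (r - 1) * (r * z r j) =
        2 * (r ^ 2 + δ) / (r - 1) * z r j + 2 * (r ^ 2 + δ) * z r j := by
      field_simp
      ring
    rw [h2]
    nlinarith

/-- The tail of the sequences of passes. -/
noncomputable def tail (r δ ρ : ℝ) (i n : ℕ) : ℝ := B r δ (i + n + 1) - (-1) ^ n * ρ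

include hr hδ in
lemma tail_lt {ρ : ℝ} {i : ℕ} (h0 : 0 < ρ) (h1 : ρ ≤ z r (i + 2)) (n : ℕ) :
    tail r δ ρ i n < tail r δ ρ i (n + 1) := by
  unfold tail
  have hB := B_succ r δ (i + n + 1)
  rw [show i + (n + 1) + 1 = i + n + 1 + 1 by ring, hB]
  have h2 := z_pos hr (i + n + 1)
  have h3 := z_pos hr (i + n + 1 + 2)
  have h5 : z r (i + 2) < z r (i + n + 1 + 2) := z_strictMono hr (by omega)
  have h4 : 0 < 2 * δ * z r (i + n + 1) := by positivity
  rcases Nat.even_or_odd n with hn | hn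
  · rw [hn.neg_one_pow, hn.add_one.neg_one_pow]; linarith
  · rw [hn.neg_one_pow, hn.add_one.neg_one_pow]; linarith

lemma tail_mem {ρ : ℝ} {i : ℕ} (h0 : 0 < ρ) (h1 : ρ ≤ z r (i + 2)) (n : ℕ) :
    tail r δ ρ i n ∈ (zig r δ hr hδ).passes ((-1) ^ i * ρ) := by
  unfold tail
  rcases Nat.even_or_odd n with hn | hn
  · rw [hn.neg_one_pow, one_mul]
    have h2 : ρ ≤ z r (i + n + 2) := h1.trans ((z_strictMono hr).monotone (by omega))
    have h3 := P3 hr hδ (i + n) h0 h2
    rwa [pow_add, hn.neg_one_pow, mul_one] at h3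
  · rw [hn.neg_one_pow, neg_one_mul, sub_neg_eq_add]
    have h2 : ρ ≤ z r (i + n + 1) * (1 + δ) := by
      have h4 : z r (i + 2) ≤ z r (i + n + 1) := (z_strictMono hr).monotone (by
        rcases hn with ⟨m, hm⟩; omega)
      have h5 := z_pos hr (i + n + 1)
      nlinarith
    have h3 := P0 hr hδ (i + n + 1) h0 h2
    rwa [add_assoc i n 1, pow_add, hn.add_one.neg_one_pow, mul_one, ← add_assoc] at h3

/-- majorant of the tail -/
noncomputable def utail (r C ρ Z : ℝ) (n : ℕ) : ℝ := C * Z * r ^ (n + 1) - (-1) ^ n * ρ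

include hr hδ in
lemma tail_le {ρ C : ℝ} (hC : C = 2 * (r ^ 2 + δ) / (r - 1)) (i n : ℕ) :
    tail r δ ρ i n ≤ utail r C ρ (z r i) n := by
  unfold tail utail
  have h1 := B_le hr hδ (i + n + 1)
  rw [← hC] at h1
  have h2 : z r (i + n + 1) = z r i * r ^ (n + 1) := by
    unfold z; rw [show i + n + 1 = i + (n + 1) by ring, pow_add]; ring
  rw [h2] at h1
  linarith

/-- Prepend a value to a sequence. -/
def cons (a : ℝ) (f : ℕ → ℝ) : ℕ → ℝ
  | 0 => a
  | n + 1 => f n

lemma strictMono_cons {a : ℝ} {f : ℕ → ℝ} (h : a < f 0) (hf : StrictMono f) :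
    StrictMono (cons a f) := by
  apply strictMono_nat_of_lt_succ
  intro n
  rcases n with _ | n
  · exact h
  · exact hf (Nat.lt_succ_self n)

lemma cons_forall {P : ℝ → Prop} {a : ℝ} {f : ℕ → ℝ} (h : P a) (hf : ∀ n, P (f n)) :
    ∀ n, P (cons a f n) := by
  intro n
  rcases n with _ | n
  · exact h
  · exact hf n

lemma cons_le {a b : ℝ} {f g : ℕ → ℝ} (h : a ≤ b) (hf : ∀ n, f n ≤ g n) :
    ∀ n, cons a f n ≤ cons b g n := by
  intro n
  rcases n with _ | n
  · exact h
  · exact hf n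

/-- `Σ q ^ n u n = s`, for a sequence with a value prepended. -/
lemma hasSum_cons {q a s : ℝ} {f : ℕ → ℝ} (hf : HasSum (fun n => q ^ n * f n) s) :
    HasSum (fun n => q ^ n * cons a f n) (a + q * s) := by
  have h1 : HasSum (fun n => q ^ (n + 1) * cons a f (n + 1)) (q * s) := by
    have h2 := hf.mul_left q
    have h3 : (fun n => q * (q ^ n * f n)) = (fun n => q ^ (n + 1) * cons a f (n + 1)) := by
      funext n
      simp only [cons, pow_succ]
      ring
    rwa [h3] at h2
  have h4 := (hasSum_nat_add_iff (f := fun n => q ^ n * cons a f n) 1).1 h1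
  simp only [Finset.sum_range_one, pow_zero, one_mul, cons] at h4
  rwa [add_comm] at h4

lemma hasSum_utail {q r C ρ Z : ℝ} (hq0 : 0 < q) (hq1 : q < 1) (hr0 : 0 < r) (hqr : q * r < 1) :
    HasSum (fun n => q ^ n * utail r C ρ Z n) (C * Z * r / (1 - q * r) - ρ / (1 + q)) := by
  have h1 : HasSum (fun n : ℕ => (q * r) ^ n) (1 - q * r)⁻¹ :=
    hasSum_geometric_of_lt_one (by positivity) hqr
  have h2 : HasSum (fun n : ℕ => (-q) ^ n) (1 - -q)⁻¹ :=
    hasSum_geometric_of_abs_lt_one (by rw [abs_neg, abs_of_pos hq0]; exact hq1)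
  have h3 := (h1.mul_left (C * Z * r)).sub (h2.mul_left ρ)
  have h4 : (fun n : ℕ => C * Z * r * (q * r) ^ n - ρ * (-q) ^ n) =
      (fun n => q ^ n * utail r C ρ Z n) := by
    funext n
    unfold utail
    rw [mul_pow, neg_pow, pow_succ]
    ring
  rw [h4] at h3
  have h5 : C * Z * r / (1 - q * r) - ρ / (1 + q) =
      C * Z * r * (1 - q * r)⁻¹ - ρ * (1 - -q)⁻¹ := by
    rw [div_eq_mul_inv, div_eq_mul_inv, sub_neg_eq_add]
  rw [h5]
  exact h3

/-- Upper bound for the expected time from a sequence of passes. -/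
lemma expectedTime_le {Y : Trajectory} {p : unitInterval} (hp : 0 < (p : ℝ)) (hp1 : (p : ℝ) < 1)
    {h : ℝ} {τ u : ℕ → ℝ} (hτ : StrictMono τ) (hτp : ∀ n, τ n ∈ Y.passes h)
    (hu : ∀ n, τ n ≤ u n) {s : ℝ} (hs : HasSum (fun n => (1 - (p : ℝ)) ^ n * u n) s) :
    Y.expectedTime p h ≤ ENNReal.ofReal (p * s) := by
  have hτ0 : ∀ n, 0 ≤ τ n := fun n => (hτp n).1
  have hu0 : ∀ n, 0 ≤ u n := fun n => (hτ0 n).trans (hu n)
  have hq0 : 0 ≤ 1 - (p : ℝ) := by linarith
  have hs2 := hs.mul_left (p : ℝ)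
  rw [Y.expectedTime_eq p hp, ← hs2.tsum_eq, ENNReal.ofReal_tsum_of_nonneg _ hs2.summable]
  · apply ENNReal.tsum_le_tsum
    intro n
    rw [ENNReal.ofReal_mul hp.le, ENNReal.ofReal_mul (pow_nonneg hq0 n), ENNReal.ofReal_pow hq0,
      mul_assoc]
    gcongr
    exact (Y.passTime_le hτ hτp n).trans (ENNReal.ofReal_le_ofReal (hu n))
  · intro n
    have := hu0 n
    positivity

/-- Region A: `z i ≤ ρ < z i (1 + δ)` (where `i ≥ 2` if `z i = ρ`). -/
lemma expected_regionA {p : unitInterval} (hp : 0 < (p : ℝ)) (hp1 : (p : ℝ) < 1) {C ρ : ℝ} {i : ℕ}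
    (hC : C = 2 * (r ^ 2 + δ) / (r - 1)) (hqr : (1 - (p : ℝ)) * r < 1) (hδr : 1 + δ ≤ r ^ 2)
    (h0 : z r i ≤ ρ) (h1 : ρ < z r i * (1 + δ)) (h2 : z r i = ρ → 2 ≤ i) :
    (zig r δ hr hδ).expectedTime p ((-1) ^ i * ρ) ≤ ENNReal.ofReal (p *
      ((C * z r i + ρ) + (1 - p) * ((C * z r i + 2 * z r i * (1 + δ) - ρ) +
        (1 - p) * ((C * z r i + 2 * δ * z r i + ρ) +
        (1 - p) * (C * z r i * r / (1 - (1 - p) * r) - ρ / (1 + (1 - p))))))) := by
  have hz := z_pos hr i
  have hρ : 0 < ρ := by linarith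
  have hB := B_le hr hδ i
  rw [← hC] at hB
  have hz2 : z r (i + 2) = r ^ 2 * z r i := by
    unfold z; rw [pow_add]; ring
  have hρ2 : ρ ≤ z r (i + 2) := by
    rw [hz2]; nlinarith
  have hρ2' : ρ < z r (i + 2) := by
    rw [hz2]; nlinarith
  have hlast : B r δ i + 2 * δ * z r i + ρ < tail r δ ρ i 0 := by
    unfold tail
    rw [pow_zero, one_mul, add_zero, B_succ]
    linarith
  have hu := hasSum_cons (a := C * z r i + ρ) (hasSum_cons (a := C * z r i + 2 * z r i * (1 + δ) - ρ)
    (hasSum_cons (a := C * z r i + 2 * δ * z r i + ρ)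
      (hasSum_utail (q := 1 - (p : ℝ)) (r := r) (C := C) (ρ := ρ) (Z := z r i) (by linarith)
        (by linarith) (by linarith) hqr)))
  rcases h0.eq_or_lt with heq | hlt
  · -- `z i = ρ`
    obtain ⟨k, rfl⟩ : ∃ k, i = k + 2 := ⟨i - 2, by have := h2 heq; omega⟩
    have hk : (-1 : ℝ) ^ (k + 2) = (-1) ^ k := by rw [pow_add]; norm_num
    have hBk : B r δ (k + 1) < B r δ (k + 2) := B_lt_succ hr hδ (k + 1)
    refine expectedTime_le hp hp1
      (τ := cons (B r δ (k + 1) - ρ) (cons (B r δ (k + 2) + ρ)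
        (cons (B r δ (k + 2) + 2 * δ * z r (k + 2) + ρ) (tail r δ ρ (k + 2)))))
      ?_ ?_ ?_ hu
    · refine strictMono_cons ?_ (strictMono_cons ?_ (strictMono_cons hlast
        (strictMono_nat_of_lt_succ (tail_lt hr hδ hρ hρ2))))
      · simp only [cons]
        linarith
      · simp only [cons]
        have : 0 < 2 * δ * z r (k + 2) := by positivity
        linarith
    · refine cons_forall (P := fun t => t ∈ (zig r δ hr hδ).passes ((-1) ^ (k + 2) * ρ)) ?_
        (cons_forall ?_ (cons_forall ?_ (tail_mem hr hδ hρ hρ2)))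
      · rw [hk]
        exact P3 hr hδ k hρ heq.ge
      · exact P0 hr hδ (k + 2) hρ h1.le
      · exact P2 hr hδ (k + 2) h0 hρ2
    · refine cons_le ?_ (cons_le ?_ (cons_le ?_ (tail_le hr hδ hC (k + 2))))
      · linarith
      · have : 0 < 2 * δ * z r (k + 2) := by positivity
        nlinarith
      · linarith
  · refine expectedTime_le hp hp1
      (τ := cons (B r δ i + ρ) (cons (B r δ i + 2 * z r i * (1 + δ) - ρ)
        (cons (B r δ i + 2 * δ * z r i + ρ) (tail r δ ρ i))))
      ?_ ?_ ?_ hu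
    · refine strictMono_cons ?_ (strictMono_cons ?_ (strictMono_cons hlast
        (strictMono_nat_of_lt_succ (tail_lt hr hδ hρ hρ2))))
      · simp only [cons]
        linarith
      · simp only [cons]
        linarith
    · refine cons_forall (P := fun t => t ∈ (zig r δ hr hδ).passes ((-1) ^ i * ρ)) ?_
        (cons_forall ?_ (cons_forall ?_ (tail_mem hr hδ hρ hρ2)))
      · exact P0 hr hδ i hρ h1.le
      · exact P1 hr hδ i h0 h1.le
      · exact P2 hr hδ i h0 hρ2
    · refine cons_le ?_ (cons_le ?_ (cons_le ?_ (tail_le hr hδ hC i)))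
      · linarith
      · linarith
      · linarith

/-- Region B: `z i (1 + δ) ≤ ρ < z (i + 2)`. -/
lemma expected_regionB {p : unitInterval} (hp : 0 < (p : ℝ)) (hp1 : (p : ℝ) < 1) {C ρ : ℝ} {i : ℕ}
    (hC : C = 2 * (r ^ 2 + δ) / (r - 1)) (hqr : (1 - (p : ℝ)) * r < 1)
    (h0 : z r i * (1 + δ) ≤ ρ) (h1 : ρ < z r (i + 2)) :
    (zig r δ hr hδ).expectedTime p ((-1) ^ i * ρ) ≤ ENNReal.ofReal (p *
      ((C * z r i + 2 * δ * z r i + ρ) +
        (1 - p) * (C * z r i * r / (1 - (1 - p) * r) - ρ / (1 + (1 - p))))) := by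
  have hz := z_pos hr i
  have hδz : 0 < z r i * δ := by positivity
  have hρ : 0 < ρ := by nlinarith
  have hB := B_le hr hδ i
  rw [← hC] at hB
  have hlast : B r δ i + 2 * δ * z r i + ρ < tail r δ ρ i 0 := by
    unfold tail
    rw [pow_zero, one_mul, add_zero, B_succ]
    linarith
  have hu := hasSum_cons (a := C * z r i + 2 * δ * z r i + ρ)
      (hasSum_utail (q := 1 - (p : ℝ)) (r := r) (C := C) (ρ := ρ) (Z := z r i) (by linarith)
        (by linarith) (by linarith) hqr)
  refine expectedTime_le hp hp1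
      (τ := cons (B r δ i + 2 * δ * z r i + ρ) (tail r δ ρ i)) ?_ ?_ ?_ hu
  · exact strictMono_cons hlast (strictMono_nat_of_lt_succ (tail_lt hr hδ hρ h1.le))
  · refine cons_forall (P := fun t => t ∈ (zig r δ hr hδ).passes ((-1) ^ i * ρ)) ?_
      (tail_mem hr hδ hρ h1.le)
    exact P2 hr hδ i (by nlinarith) h1.le
  · refine cons_le ?_ (tail_le hr hδ hC i)
    linarith

include hr in
/-- Every distance `ρ ≥ 1` lies in a region, on both sides. -/
lemma exists_region {ρ : ℝ} (h : 1 ≤ ρ) (e : ℕ) (he : e < 2) :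
    ∃ i, i % 2 = e ∧ z r i ≤ ρ ∧ ρ < z r (i + 2) ∧ (z r i = ρ → 2 ≤ i) := by
  classical
  have hr0 : 0 < r := by linarith
  have hz0 : z r 0 < 1 := by
    unfold z
    rw [pow_zero, one_mul]
    apply inv_lt_one_of_one_lt₀
    nlinarith
  have hz1 : z r 1 < 1 := by
    unfold z
    rw [pow_one, ← div_eq_mul_inv, div_lt_one (by positivity)]
    nlinarith
  have hze : z r e < 1 := by
    rcases Nat.lt_or_ge e 1 with h1 | h1
    · rw [show e = 0 by omega]; exact hz0
    · rw [show e = 1 by omega]; exact hz1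
  have hex : ∃ m, ρ < z r (e + 2 * m + 2) := by
    have ht := tendsto_pow_atTop_atTop_of_one_lt hr
    obtain ⟨n, hn⟩ := ((tendsto_atTop.1 ht) ((ρ + 1) * r ^ 2)).exists
    refine ⟨n, ?_⟩
    have h1 : ρ + 1 ≤ z r n := by
      unfold z
      rw [← div_eq_mul_inv, le_div_iff₀ (by positivity)]
      exact hn
    have h2 : z r n ≤ z r (e + 2 * n + 2) := (z_strictMono hr).monotone (by omega)
    linarith
  refine ⟨e + 2 * Nat.find hex, by omega, ?_, Nat.find_spec hex, ?_⟩
  · rcases Nat.eq_zero_or_pos (Nat.find hex) with h1 | h1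
    · rw [h1, mul_zero, add_zero]; linarith
    · have := Nat.find_min hex (m := Nat.find hex - 1) (by omega)
      rw [show e + 2 * (Nat.find hex - 1) + 2 = e + 2 * Nat.find hex by omega] at this
      exact not_lt.1 this
  · intro heq
    rcases Nat.eq_zero_or_pos (Nat.find hex) with h1 | h1
    · exfalso
      rw [h1, mul_zero, add_zero] at heq
      linarith
    · omega

lemma algA {q δ Z ρ : ℝ} (hq0 : 0 < q) (hq1 : q < 1) {r C : ℝ} (hr : r = 2 / (1 + q))
    (hC : C = 2 * (r ^ 2 + δ) / (r - 1)) :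
    (1 - q) * ((1 - q) * ((C * Z + ρ) + q * ((C * Z + 2 * Z * (1 + δ) - ρ) +
      q * ((C * Z + 2 * δ * Z + ρ) + q * (C * Z * r / (1 - q * r) - ρ / (1 + q)))))) =
    (8 * (1 - q + q ^ 2) + 2 * (1 - q) ^ 2 * q + δ * (2 * (1 + q) ^ 2 * (1 - q + q ^ 2) +
      2 * (1 - q) ^ 2 * q + 2 * (1 - q) ^ 2 * q ^ 2)) * Z + (1 - q) ^ 2 / (1 + q) * ρ := by
  have h1 : (1 + q) ≠ 0 := by positivity
  have h2 : (1 - q) ≠ 0 := by linarith
  have h3 : r - 1 = (1 - q) / (1 + q) := by rw [hr]; field_simp; ring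
  have h4 : 1 - q * r = (1 - q) / (1 + q) := by rw [hr]; field_simp; ring
  have h5 : C = (8 / (1 + q) + 2 * δ * (1 + q)) / (1 - q) := by
    rw [hC, h3, hr]; field_simp; ring
  rw [h4, h5, hr]
  field_simp
  ring

lemma algB {q δ Z ρ : ℝ} (hq0 : 0 < q) (hq1 : q < 1) {r C : ℝ} (hr : r = 2 / (1 + q))
    (hC : C = 2 * (r ^ 2 + δ) / (r - 1)) :
    (1 - q) * ((1 - q) * ((C * Z + 2 * δ * Z + ρ) + q * (C * Z * r / (1 - q * r) - ρ / (1 + q)))) =
    (8 + 4 * δ * (1 + q ^ 2)) * Z + (1 - q) ^ 2 / (1 + q) * ρ := by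
  have h1 : (1 + q) ≠ 0 := by positivity
  have h2 : (1 - q) ≠ 0 := by linarith
  have h3 : r - 1 = (1 - q) / (1 + q) := by rw [hr]; field_simp; ring
  have h4 : 1 - q * r = (1 - q) / (1 + q) := by rw [hr]; field_simp; ring
  have h5 : C = (8 / (1 + q) + 2 * δ * (1 + q)) / (1 - q) := by
    rw [hC, h3, hr]; field_simp; ring
  rw [h4, h5, hr]
  field_simp
  ring

/-- The zigzag trajectory with `r = 2 / (2 - p)` and `δ = p (1 - p) / 2` is better than
`8 + p² / (2 - p)`. -/
theorem exists_better {p : unitInterval} (hp : 0 < (p : ℝ)) (hp1 : (p : ℝ) < 1) :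
    ∃ Y : Trajectory, Y.CR p < ENNReal.ofReal (8 + (p : ℝ) ^ 2 / (2 - p)) := by
  obtain ⟨q, hq⟩ : ∃ q : ℝ, q = 1 - (p : ℝ) := ⟨_, rfl⟩
  have hpq : (p : ℝ) = 1 - q := by rw [hq]; ring
  have hq0 : 0 < q := by rw [hq]; linarith
  have hq1 : q < 1 := by rw [hq]; linarith
  obtain ⟨r, hrdef⟩ : ∃ r : ℝ, r = 2 / (1 + q) := ⟨_, rfl⟩
  obtain ⟨δ, hδdef⟩ : ∃ δ : ℝ, δ = q * (1 - q) / 2 := ⟨_, rfl⟩
  obtain ⟨C, hC⟩ : ∃ C : ℝ, C = 2 * (r ^ 2 + δ) / (r - 1) := ⟨_, rfl⟩
  have hr : 1 < r := by rw [hrdef, lt_div_iff₀ (by linarith)]; linarith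
  have h1q : 0 < 1 - q := by linarith
  have hδ : 0 < δ := by rw [hδdef]; positivity
  have hqr : (1 - (p : ℝ)) * r < 1 := by
    rw [← hq, hrdef, ← mul_div_assoc, div_lt_one (by linarith)]; linarith
  have hδr : 1 + δ ≤ r ^ 2 := by
    rw [hrdef, hδdef, div_pow, le_div_iff₀ (by positivity)]
    nlinarith [mul_pos hq0 h1q, mul_pos (mul_pos hq0 h1q) hq0,
      mul_pos (mul_pos (mul_pos hq0 h1q) hq0) hq0]
  obtain ⟨F, hF⟩ : ∃ F : ℝ, F = (8 + 4 * δ * (1 + q ^ 2)) / (1 + δ) := ⟨_, rfl⟩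
  obtain ⟨G, hG⟩ : ∃ G : ℝ, G = 8 * (1 - q + q ^ 2) + 2 * (1 - q) ^ 2 * q +
    δ * (2 * (1 + q) ^ 2 * (1 - q + q ^ 2) + 2 * (1 - q) ^ 2 * q + 2 * (1 - q) ^ 2 * q ^ 2) :=
    ⟨_, rfl⟩
  have hF8 : F < 8 := by
    rw [hF, div_lt_iff₀ (by linarith)]
    have : 0 < δ * (1 - q) := by positivity
    nlinarith
  have hG8 : G < 8 := by
    rw [hG, hδdef]
    nlinarith [mul_pos hq0 h1q, mul_pos (mul_pos hq0 h1q) hq0,
      mul_pos (mul_pos (mul_pos hq0 h1q) hq0) hq0]
  have hF0 : 0 ≤ F := by rw [hF]; positivity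
  have hG0 : 0 ≤ G := by
    rw [hG]
    have : 0 ≤ 1 - q + q ^ 2 := by nlinarith
    positivity
  have h2p : (2 : ℝ) - p = 1 + q := by rw [hpq]; ring
  obtain ⟨D, hD⟩ : ∃ D : ℝ, D = (1 - q) ^ 2 / (1 + q) := ⟨_, rfl⟩
  have hD0 : 0 ≤ D := by rw [hD]; positivity
  have hgoal : 8 + (p : ℝ) ^ 2 / (2 - p) = 8 + D := by rw [h2p, hpq, hD]
  refine ⟨zig r δ hr hδ, ?_⟩
  rw [hgoal]
  have hmax : (zig r δ hr hδ).CR p ≤ ENNReal.ofReal (max F G + D) := by
    unfold CR
    refine iSup₂_le fun h hh => ?_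
    have hpos : 0 < |h| := lt_of_lt_of_le one_pos hh
    -- the side of `h`
    obtain ⟨e, he, hes⟩ : ∃ e : ℕ, e < 2 ∧ h = (-1) ^ e * |h| := by
      rcases le_total 0 h with h1 | h1
      · exact ⟨0, by norm_num, by rw [abs_of_nonneg h1]; ring⟩
      · exact ⟨1, by norm_num, by rw [abs_of_nonpos h1]; ring⟩
    obtain ⟨i, hie, hz1, hz2, hz3⟩ := exists_region hr hh e he
    have hei : (-1 : ℝ) ^ e = (-1) ^ i := by
      rcases Nat.lt_or_ge e 1 with h1 | h1
      · have h2 : Even i := by rw [Nat.even_iff]; omega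
        rw [h2.neg_one_pow, show e = 0 by omega, pow_zero]
      · have h2 : Odd i := by rw [Nat.odd_iff]; omega
        rw [h2.neg_one_pow, show e = 1 by omega, pow_one]
    have hz := z_pos hr i
    have key : ∀ s : ℝ, (zig r δ hr hδ).expectedTime p ((-1) ^ i * |h|) ≤ ENNReal.ofReal (p * s) →
        (p : ℝ) * (p * s) ≤ (max F G + D) * |h| →
        ENNReal.ofReal (p : ℝ) * (zig r δ hr hδ).expectedTime p h / ENNReal.ofReal |h| ≤
          ENNReal.ofReal (max F G + D) := by
      intro s h1 h2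
      rw [← hei, ← hes] at h1
      have h3 : ENNReal.ofReal |h| ≠ 0 := by
        rw [Ne, ENNReal.ofReal_eq_zero]; linarith
      rw [ENNReal.div_le_iff h3 ENNReal.ofReal_ne_top, ← ENNReal.ofReal_mul' (abs_nonneg h)]
      calc ENNReal.ofReal (p : ℝ) * (zig r δ hr hδ).expectedTime p h
          ≤ ENNReal.ofReal (p : ℝ) * ENNReal.ofReal (p * s) := by gcongr
        _ = ENNReal.ofReal (p * (p * s)) := (ENNReal.ofReal_mul hp.le).symm
        _ ≤ _ := ENNReal.ofReal_le_ofReal h2
    have hFm : F ≤ max F G := le_max_left _ _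
    have hGm : G ≤ max F G := le_max_right _ _
    rcases lt_or_ge |h| (z r i * (1 + δ)) with hA | hB
    · refine key _ (expected_regionA hr hδ hp hp1 hC hqr hδr hz1 hA hz3) ?_
      have := algA (δ := δ) (Z := z r i) (ρ := |h|) hq0 hq1 hrdef hC
      rw [← hq, hpq, this, ← hG, ← hD]
      have h1 : G * z r i ≤ G * |h| := mul_le_mul_of_nonneg_left hz1 hG0
      have h2 : G * |h| ≤ max F G * |h| := mul_le_mul_of_nonneg_right hGm hpos.le
      linarith
    · refine key _ (expected_regionB hr hδ hp hp1 hC hqr hB hz2) ?_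
      have := algB (δ := δ) (Z := z r i) (ρ := |h|) hq0 hq1 hrdef hC
      rw [← hq, hpq, this, ← hD]
      have h1 : (8 + 4 * δ * (1 + q ^ 2)) * z r i = F * (z r i * (1 + δ)) := by
        rw [hF]; field_simp
      have h2 : F * (z r i * (1 + δ)) ≤ F * |h| := mul_le_mul_of_nonneg_left hB hF0
      have h3 : F * |h| ≤ max F G * |h| := mul_le_mul_of_nonneg_right hFm hpos.le
      linarith
  refine lt_of_le_of_lt hmax ?_
  apply (ENNReal.ofReal_lt_ofReal_iff (by positivity)).2
  have := max_lt hF8 hG8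
  linarith

end zigzag

end Trajectory

/-! ## The exact infimum over the cyclic monotone trajectories (not used in `result`) -/

section geometric

open Trajectory

/-- The turning points `(-1) ^ i z i`, `i = 0, 1, 2, …`, preceded by `0`. -/
noncomputable def gy (r : ℝ) : ℕ → ℝ
  | 0 => 0
  | i + 1 => (-1) ^ i * z r i

variable {r : ℝ} (hr : 1 < r)

lemma gy_diff (r : ℝ) (i : ℕ) : gy r (i + 2) - gy r (i + 1) =
    -((-1) ^ i * (z r (i + 1) + z r i)) := by
  simp only [gy, pow_succ]; ring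

lemma gy_diff_zero (r : ℝ) : gy r 1 - gy r 0 = z r 0 := by simp [gy]

/-- The cyclic monotone trajectory with geometric turning points. -/
noncomputable def geo (r : ℝ) (hr : 1 < r) : Trajectory where
  y := gy r
  y_zero := rfl
  y_one := by
    have := z_pos hr 0
    simp only [gy, pow_zero, one_mul]
    exact this.ne'
  turn := by
    intro i hi
    obtain ⟨n, rfl⟩ : ∃ n, i = n + 1 := ⟨i - 1, by omega⟩
    rw [Nat.add_sub_cancel]
    rcases n with _ | n
    · rw [gy_diff, zero_add, gy_diff_zero, pow_zero, one_mul]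
      have h0 := z_pos hr 0
      have h1 := z_pos hr (0 + 1)
      nlinarith [mul_pos h0 h0, mul_pos h0 h1]
    · rw [gy_diff, gy_diff]
      have h0 := z_pos hr n
      have h1 := z_pos hr (n + 1)
      have h2 := z_pos hr (n + 1 + 1)
      have h3 : -((-1) ^ (n + 1) * (z r (n + 1 + 1) + z r (n + 1))) *
          -((-1) ^ n * (z r (n + 1) + z r n)) =
          -(((-1) ^ n * (-1) ^ n) * ((z r (n + 1 + 1) + z r (n + 1)) * (z r (n + 1) + z r n))) := by
        rw [pow_succ]; ring
      rw [h3, neg_one_pow_mul_self, one_mul, neg_lt_zero]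
      positivity
  infinite := by
    have hε : 0 < z r 0 := z_pos hr 0
    have hm := (z_strictMono hr).monotone
    have h1 : Tendsto (fun n : ℕ => (n : ℝ) * z r 0) atTop atTop :=
      tendsto_natCast_atTop_atTop.atTop_mul_const hε
    refine tendsto_atTop_mono ?_ h1
    intro n
    calc (n : ℝ) * z r 0 = ∑ i ∈ Finset.range n, z r 0 := by simp
      _ ≤ _ := Finset.sum_le_sum fun i _ => by
        rcases i with _ | i
        · rw [zero_add, gy_diff_zero, abs_of_pos hε]
        · rw [gy_diff, abs_neg, abs_neg_one_pow_mul,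
            abs_of_pos (add_pos (z_pos hr _) (z_pos hr _))]
          have := z_pos hr i
          have := hm (Nat.zero_le (i + 1))
          linarith

lemma geo_isCyclicMonotone : (geo r hr).IsCyclicMonotone := by
  refine ⟨fun i => z r (i - 1), fun i _ => z_pos hr _, fun i hi => z_strictMono hr (by omega),
    Or.inl fun i hi => ?_⟩
  obtain ⟨n, rfl⟩ : ∃ n, i = n + 1 := ⟨i - 1, by omega⟩
  change (-1) ^ n * z r n = _
  simp only [Nat.add_sub_cancel, pow_succ]
  ring

lemma geo_passes {k : ℕ} {ρ : ℝ} (h0 : 0 < ρ) (h1 : ρ ≤ z r (k + 2)) (n : ℕ) :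
    2 * psum (z r) (k + 2 + n) + (-1) ^ n * ρ ∈ (geo r hr).passes ((-1) ^ k * ρ) := by
  have ht : (geo r hr).time (k + 1 + n + 1) =
      2 * psum (z r) (k + 1 + n + 1) - z r (k + 1 + n) := by
    refine time_cyclic (σ := 1) (by norm_num) (z_pos hr) (fun i => ?_) _
    rw [one_mul]; rfl
  rw [mem_passes_iff]
  refine ⟨k + 2 + n, ?_, ?_⟩
  · change (-1) ^ k * ρ ∈ Set.uIcc (gy r (k + 2 + n)) (gy r (k + 2 + n + 1))
    have e1 : gy r (k + 2 + n) = (-1) ^ k * (-((-1) ^ n * z r (k + 1 + n))) := by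
      rw [show k + 2 + n = k + 1 + n + 1 by ring]
      simp only [gy, pow_add, pow_one]; ring
    have e2 : gy r (k + 2 + n + 1) = (-1) ^ k * ((-1) ^ n * z r (k + 2 + n)) := by
      simp only [gy, pow_add]; ring
    rw [e1, e2]
    apply mem_uIcc_neg_one_pow
    have h2 := z_pos hr (k + 1 + n)
    have h3 := z_pos hr (k + 2 + n)
    rcases Nat.even_or_odd n with hn | hn
    · rw [hn.neg_one_pow]
      left
      have h4 := (z_strictMono hr).monotone (show k + 2 ≤ k + 2 + n by omega)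
      constructor <;> linarith
    · rw [hn.neg_one_pow]
      right
      have h4 := (z_strictMono hr).monotone (show k + 2 ≤ k + 1 + n by
        rcases hn with ⟨m, hm⟩; omega)
      constructor <;> linarith
  · rw [show k + 2 + n = k + 1 + n + 1 by ring, ht]
    change _ = 2 * psum (z r) (k + 1 + n + 1) - z r (k + 1 + n) +
      |(-1) ^ k * ρ - (-1) ^ (k + 1 + n) * z r (k + 1 + n)|
    have e1 : (-1 : ℝ) ^ (k + 1 + n) * z r (k + 1 + n) =
        (-1) ^ k * (-((-1) ^ n * z r (k + 1 + n))) := by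
      simp only [pow_add, pow_one]; ring
    rw [e1, abs_neg_one_pow_sub]
    have h2 := z_pos hr (k + 1 + n)
    rcases Nat.even_or_odd n with hn | hn
    · rw [hn.neg_one_pow, abs_of_nonneg (by linarith)]
      ring
    · rw [hn.neg_one_pow]
      have h4 := (z_strictMono hr).monotone (show k + 2 ≤ k + 1 + n by
        rcases hn with ⟨m, hm⟩; omega)
      rw [abs_of_nonpos (by linarith)]
      ring

include hr in
lemma psum_z_le (n : ℕ) : psum (z r) n ≤ z r n / (r - 1) := by
  have hr1 : 0 < r - 1 := by linarith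
  induction n with
  | zero =>
    have := z_pos hr 0
    simp only [psum, Finset.range_zero, Finset.sum_empty]
    positivity
  | succ n ih =>
    rw [psum_succ, z_succ r]
    have : r * z r n / (r - 1) = z r n / (r - 1) + z r n := by field_simp; ring
    linarith

theorem geo_CR {p : unitInterval} (hp : 0 < (p : ℝ)) (hp1 : (p : ℝ) < 1)
    (hr' : r = 2 / (2 - (p : ℝ))) :
    (geo r hr).CR p ≤ ENNReal.ofReal (8 + (p : ℝ) ^ 2 / (2 - p)) := by
  obtain ⟨q, hq⟩ : ∃ q : ℝ, q = 1 - (p : ℝ) := ⟨_, rfl⟩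
  have hpq : (p : ℝ) = 1 - q := by rw [hq]; ring
  have hq0 : 0 < q := by rw [hq]; linarith
  have hq1 : q < 1 := by rw [hq]; linarith
  have h2p : (2 : ℝ) - p = 1 + q := by rw [hpq]; ring
  rw [h2p] at hr'
  have hqr : q * r < 1 := by
    rw [hr', ← mul_div_assoc, div_lt_one (by linarith)]; linarith
  have hr0 : 0 < r := by linarith
  have hr1 : 0 < r - 1 := by linarith
  unfold CR
  refine iSup₂_le fun h hh => ?_
  have hpos : 0 < |h| := lt_of_lt_of_le one_pos hh
  obtain ⟨e, he, hes⟩ : ∃ e : ℕ, e < 2 ∧ h = (-1) ^ e * |h| := by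
    rcases le_total 0 h with h1 | h1
    · exact ⟨0, by norm_num, by rw [abs_of_nonneg h1]; ring⟩
    · exact ⟨1, by norm_num, by rw [abs_of_nonpos h1]; ring⟩
  obtain ⟨i, hie, hz1, hz2, hz3⟩ := exists_region hr hh e he
  have hei : (-1 : ℝ) ^ e = (-1) ^ i := by
    rcases Nat.lt_or_ge e 1 with h1 | h1
    · have h2 : Even i := by rw [Nat.even_iff]; omega
      rw [h2.neg_one_pow, show e = 0 by omega, pow_zero]
    · have h2 : Odd i := by rw [Nat.odd_iff]; omega
      rw [h2.neg_one_pow, show e = 1 by omega, pow_one]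
  have hz := z_pos hr i
  have hsum1 : HasSum (fun n : ℕ => q ^ n * (2 * (z r i * r ^ 2 * r ^ n / (r - 1)) +
      (-1) ^ n * |h|)) (2 * (z r i * r ^ 2) / (r - 1) / (1 - q * r) + |h| / (1 + q)) := by
    have h1 : HasSum (fun n : ℕ => (q * r) ^ n) (1 - q * r)⁻¹ :=
      hasSum_geometric_of_lt_one (by positivity) hqr
    have h2 : HasSum (fun n : ℕ => (-q) ^ n) (1 - -q)⁻¹ :=
      hasSum_geometric_of_abs_lt_one (by rw [abs_neg, abs_of_pos hq0]; exact hq1)
    have h3 := (h1.mul_left (2 * (z r i * r ^ 2) / (r - 1))).add (h2.mul_left |h|)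
    have h4 : (fun n : ℕ => 2 * (z r i * r ^ 2) / (r - 1) * (q * r) ^ n + |h| * (-q) ^ n) =
        (fun n : ℕ => q ^ n * (2 * (z r i * r ^ 2 * r ^ n / (r - 1)) + (-1) ^ n * |h|)) := by
      funext n
      rw [mul_pow, neg_pow q n]
      ring
    rw [h4] at h3
    have h5 : 2 * (z r i * r ^ 2) / (r - 1) / (1 - q * r) + |h| / (1 + q) =
        2 * (z r i * r ^ 2) / (r - 1) * (1 - q * r)⁻¹ + |h| * (1 - -q)⁻¹ := by
      rw [div_eq_mul_inv _ (1 - q * r), div_eq_mul_inv |h|, sub_neg_eq_add]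
    rw [h5]; exact h3
  have hE : (geo r hr).expectedTime p ((-1) ^ i * |h|) ≤
      ENNReal.ofReal (p * (2 * (z r i * r ^ 2) / (r - 1) / (1 - q * r) + |h| / (1 + q))) := by
    have hsum2 : HasSum (fun n : ℕ => (1 - (p : ℝ)) ^ n * (2 * (z r i * r ^ 2 * r ^ n / (r - 1)) +
        (-1) ^ n * |h|)) (2 * (z r i * r ^ 2) / (r - 1) / (1 - q * r) + |h| / (1 + q)) := by
      rw [← hq]; exact hsum1
    have hmono : StrictMono (fun n => 2 * psum (z r) (i + 2 + n) + (-1) ^ n * |h|) :=
      strictMono_passes (z_pos hr) (fun i => z_strictMono hr (by omega)) hpos hz2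
    refine expectedTime_le hp hp1 hmono (geo_passes hr hpos hz2.le) ?_ hsum2
    intro n
    have h1 := psum_z_le hr (i + 2 + n)
    have h2 : z r (i + 2 + n) = z r i * r ^ 2 * r ^ n := by
      unfold z; rw [pow_add, pow_add]; ring
    rw [h2] at h1
    linarith
  have h3 : ENNReal.ofReal |h| ≠ 0 := by
    rw [Ne, ENNReal.ofReal_eq_zero]; linarith
  rw [← hei, ← hes] at hE
  rw [ENNReal.div_le_iff h3 ENNReal.ofReal_ne_top, ← ENNReal.ofReal_mul' (abs_nonneg h)]
  refine (mul_le_mul_right hE _).trans ?_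
  rw [← ENNReal.ofReal_mul hp.le]
  apply ENNReal.ofReal_le_ofReal
  rw [h2p, hpq]
  have h6 : (1 - q) * ((1 - q) * (2 * (z r i * r ^ 2) / (r - 1) / (1 - q * r) + |h| / (1 + q))) =
      8 * z r i + (1 - q) ^ 2 / (1 + q) * |h| := by
    have e1 : (1 + q) ≠ 0 := by positivity
    have e2 : (1 - q) ≠ 0 := by linarith
    have e3 : r - 1 = (1 - q) / (1 + q) := by rw [hr']; field_simp; ring
    have e4 : 1 - q * r = (1 - q) / (1 + q) := by rw [hr']; field_simp; ring
    rw [e3, e4]
    have e5 : r ^ 2 = 4 / (1 + q) ^ 2 := by rw [hr', div_pow]; norm_num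
    rw [e5]
    field_simp
    ring
  rw [h6]
  nlinarith

/-- The infimum over the cyclic monotone trajectories is `8 + p² / (2 - p)`; in particular it is
finite. -/
theorem cyclic_value (p : unitInterval) (hp : 0 < (p : ℝ)) (hp1 : (p : ℝ) < 1) :
    ⨅ Y : {Y : Trajectory // Y.IsCyclicMonotone}, Y.1.CR p =
      ENNReal.ofReal (8 + (p : ℝ) ^ 2 / (2 - p)) := by
  have hr : 1 < 2 / (2 - (p : ℝ)) := by rw [lt_div_iff₀ (by linarith)]; linarith
  apply le_antisymm
  · refine iInf_le_of_le ⟨geo _ hr, geo_isCyclicMonotone hr⟩ ?_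
    exact geo_CR hr hp hp1 rfl
  · exact le_iInf fun Y => Y.1.cyclic_lower_bound hp hp1 Y.2

end geometric

/-- For every `p` in `(0, 1)` the infimum of the competitive ratio over all trajectories is strictly
smaller than its infimum over the cyclic monotone trajectories. -/
theorem result (p : unitInterval) (hp : 0 < (p : ℝ)) (hp1 : (p : ℝ) < 1) :
    ⨅ X : Trajectory, X.CR p < ⨅ Y : {Y : Trajectory // Y.IsCyclicMonotone}, Y.1.CR p := by
  obtain ⟨Z, hZ⟩ := Trajectory.exists_better hp hp1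
  refine lt_of_le_of_lt (iInf_le _ Z) (lt_of_lt_of_le hZ (le_iInf fun Y => ?_))
  exact Y.1.cyclic_lower_bound hp hp1 Y.2

end Pool.Agent.Results.MP_75ee99_lc.CyclicMonotone
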